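import Mathlib

/-! Reflections, lifts and the linearised billiard equations around a closed 4-link chain. -/

set_option autoImplicit false

namespace Pool.Agent.MP_249f74_an.H39

open scoped RealInnerProductSpace

variable {E : Type*} [NormedAddCommGroup E] [InnerProductSpace ℝ E]

/-- The reflection exchanging the unit vectors `a` and `c`. -/
noncomputable def rf (a c y : E) : E := y - (⟪y, c - a⟫ / (1 - ⟪a, c⟫)) • (c - a)

/-- The lift along `a` of a vector orthogonal to `a` to the hyperplane orthogonal to `c - a`. -/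
noncomputable def lf (a c y : E) : E := y + (⟪y, c⟫ / (1 - ⟪a, c⟫)) • a

/-- Projection onto the orthogonal complement of a unit vector. -/
noncomputable def pr (a u : E) : E := u - ⟪u, a⟫ • a

/-- Scaled component of `u` orthogonal to `a` and `c`. -/
noncomputable def bin (a c u : E) : E :=
  (1 - ⟪a, c⟫ ^ 2) • u - (⟪u, a⟫ - ⟪a, c⟫ * ⟪u, c⟫) • a - (⟪u, c⟫ - ⟪a, c⟫ * ⟪u, a⟫) • c

/-- The focusing form at a vertex. -/
noncomputable def Ah (a c : E) (l l' : ℝ) (M : E →L[ℝ] E) (y z : E) : ℝ :=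
  (l + l') * ⟪y, z⟫ + l * l' * ⟪M (lf a c y), lf a c z⟫

/-- Two distinct unit vectors. -/
structure UU (a c : E) : Prop where
  ha : ⟪a, a⟫ = 1
  hc : ⟪c, c⟫ = 1
  ne : 1 - ⟪a, c⟫ ≠ 0

section basic
variable {a c : E}

lemma rf_add (y z : E) : rf a c (y + z) = rf a c y + rf a c z := by
  simp only [rf, inner_add_left, add_div, add_smul]; abel

lemma rf_smul (t : ℝ) (y : E) : rf a c (t • y) = t • rf a c y := by
  simp only [rf, real_inner_smul_left, smul_sub, smul_smul, mul_div_assoc]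

lemma rf_neg (y : E) : rf a c (-y) = -rf a c y := by
  have := rf_smul (a := a) (c := c) (-1) y
  simpa using this

lemma rf_sub (y z : E) : rf a c (y - z) = rf a c y - rf a c z := by
  rw [sub_eq_add_neg, rf_add, rf_neg, ← sub_eq_add_neg]

lemma lf_add (y z : E) : lf a c (y + z) = lf a c y + lf a c z := by
  simp only [lf, inner_add_left, add_div, add_smul]; abel

lemma lf_smul (t : ℝ) (y : E) : lf a c (t • y) = t • lf a c y := by
  simp only [lf, real_inner_smul_left, smul_add, smul_smul, mul_div_assoc]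

lemma inner_rf (y z : E) : ⟪rf a c y, z⟫ = ⟪y, rf a c z⟫ := by
  rw [rf, rf, inner_sub_left y, inner_sub_right y z, real_inner_smul_left, real_inner_smul_right,
    real_inner_comm z (c - a)]
  ring

lemma rf_of_tan {y : E} (h : ⟪y, c - a⟫ = 0) : rf a c y = y := by
  simp [rf, h]

lemma rf_of_perp {y : E} (h1 : ⟪y, a⟫ = 0) (h2 : ⟪y, c⟫ = 0) : rf a c y = y :=
  rf_of_tan (by rw [inner_sub_right, h1, h2, sub_self])

lemma lf_of_perp {y : E} (h2 : ⟪y, c⟫ = 0) : lf a c y = y := by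
  simp [lf, h2]

lemma UU.rf_a (h : UU a c) : rf a c a = c := by
  have : ⟪a, c - a⟫ / (1 - ⟪a, c⟫) = -1 := by
    rw [inner_sub_right, h.ha, div_eq_iff h.ne]; ring
  rw [rf, this]; simp

lemma UU.rf_c (h : UU a c) : rf a c c = a := by
  have : ⟪c, c - a⟫ / (1 - ⟪a, c⟫) = 1 := by
    rw [inner_sub_right, h.hc, real_inner_comm a c, div_self h.ne]
  rw [rf, this]; simp

lemma UU.rf_rf (h : UU a c) (y : E) : rf a c (rf a c y) = y := by
  have h1 : rf a c (c - a) = -(c - a) := by rw [rf_sub, h.rf_a, h.rf_c]; simp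
  conv_lhs => rw [show rf a c y = y - (⟪y, c - a⟫ / (1 - ⟪a, c⟫)) • (c - a) from rfl]
  rw [rf_sub, rf_smul, h1, rf, smul_neg]
  abel

lemma UU.inner_rf_rf (h : UU a c) (y z : E) : ⟪rf a c y, rf a c z⟫ = ⟪y, z⟫ := by
  rw [inner_rf, h.rf_rf]

lemma UU.rf_perp (h : UU a c) {y : E} (hy : ⟪y, a⟫ = 0) : ⟪rf a c y, c⟫ = 0 := by
  rw [inner_rf, h.rf_c, hy]

lemma UU.rf_perp' (h : UU a c) {y : E} (hy : ⟪y, c⟫ = 0) : ⟪rf a c y, a⟫ = 0 := by
  rw [inner_rf, h.rf_a, hy]

lemma UU.lf_tan (h : UU a c) {y : E} (hy : ⟪y, a⟫ = 0) : ⟪lf a c y, c - a⟫ = 0 := by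
  have := h.ne
  simp only [lf, inner_add_left, inner_sub_right, real_inner_smul_left, hy, h.ha]
  field_simp
  ring

lemma lf_eq_rf {y : E} (hy : ⟪y, a⟫ = 0) :
    lf a c y = rf a c y + (⟪y, c⟫ / (1 - ⟪a, c⟫)) • c := by
  simp only [lf, rf, inner_sub_right, hy, sub_zero, smul_sub]
  abel

lemma pr_perp (ha : ⟪a, a⟫ = (1 : ℝ)) (u : E) : ⟪pr a u, a⟫ = 0 := by
  rw [pr, inner_sub_left, real_inner_smul_left, ha]; ring

lemma inner_pr {z : E} (hz : ⟪z, a⟫ = 0) (u : E) : ⟪pr a u, z⟫ = ⟪u, z⟫ := by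
  simp [pr, inner_sub_left, real_inner_smul_left, real_inner_comm z a, hz]

lemma UU.lf_pr (h : UU a c) {u : E} (hu : ⟪u, c - a⟫ = 0) : lf a c (pr a u) = u := by
  have h1 : ⟪u, c⟫ = ⟪u, a⟫ := by rw [inner_sub_right] at hu; linarith
  have h2 : ⟪pr a u, c⟫ / (1 - ⟪a, c⟫) = ⟪u, a⟫ := by
    rw [div_eq_iff h.ne, pr, inner_sub_left, real_inner_smul_left, h1]; ring
  rw [lf, h2, pr]; simp

lemma UU.lf_prc (h : UU a c) : lf a c (pr a c) = a + c := by
  have h2 : ⟪pr a c, c⟫ / (1 - ⟪a, c⟫) = 1 + ⟪c, a⟫ := by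
    rw [div_eq_iff h.ne, pr, inner_sub_left, real_inner_smul_left, h.hc, real_inner_comm a c]; ring
  rw [lf, h2, pr, add_smul, one_smul]; abel

lemma UU.rf_prc (h : UU a c) : rf a c (pr a c) = pr c a := by
  rw [pr, pr, rf_sub, rf_smul, h.rf_a, h.rf_c, real_inner_comm]

lemma UU.inner_prc (h : UU a c) : ⟪pr a c, pr a c⟫ = 1 - ⟪a, c⟫ ^ 2 := by
  rw [inner_pr (pr_perp h.ha c), real_inner_comm, pr, inner_sub_left, real_inner_smul_left, h.hc,
    real_inner_comm a c]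
  ring

lemma UU.bin_a (h : UU a c) (u : E) : ⟪bin a c u, a⟫ = 0 := by
  simp only [bin, inner_sub_left, real_inner_smul_left, h.ha, real_inner_comm a c]; ring

lemma UU.bin_c (h : UU a c) (u : E) : ⟪bin a c u, c⟫ = 0 := by
  simp only [bin, inner_sub_left, real_inner_smul_left, h.hc]; ring

lemma Ah_symm {l l' : ℝ} {M : E →L[ℝ] E} (hM : ∀ y z, ⟪M y, z⟫ = ⟪M z, y⟫) (y z : E) :
    Ah a c l l' M y z = Ah a c l l' M z y := by
  rw [Ah, Ah, hM, real_inner_comm y z]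

lemma Ah_add (l l' : ℝ) (M : E →L[ℝ] E) (y z z' : E) :
    Ah a c l l' M y (z + z') = Ah a c l l' M y z + Ah a c l l' M y z' := by
  simp only [Ah, lf_add, inner_add_right]; ring

lemma Ah_smul (l l' : ℝ) (M : E →L[ℝ] E) (y z : E) (t : ℝ) :
    Ah a c l l' M y (t • z) = t * Ah a c l l' M y z := by
  simp only [Ah, lf_smul, real_inner_smul_right]; ring

lemma Ah_add_left (l l' : ℝ) (M : E →L[ℝ] E) (y y' z : E) :
    Ah a c l l' M (y + y') z = Ah a c l l' M y z + Ah a c l l' M y' z := by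
  simp only [Ah, lf_add, map_add, inner_add_left]; ring

lemma Ah_smul_left (l l' : ℝ) (M : E →L[ℝ] E) (y z : E) (t : ℝ) :
    Ah a c l l' M (t • y) z = t * Ah a c l l' M y z := by
  simp only [Ah, lf_smul, map_smul, real_inner_smul_left]; ring

/-- The linearised reflection law at one vertex. -/
lemma UU.vertex (h : UU a c) {l l' dl dl' mu : ℝ} {M : E →L[ℝ] E} {qm q qp da dc : E}
    (ht : ⟪q, c - a⟫ = 0) (e1 : q - qm = dl • a + l • da) (o1 : ⟪da, a⟫ = 0)
    (e2 : qp - q = dl' • c + l' • dc) (o2 : ⟪dc, c⟫ = 0)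
    (hr : dc - da = mu • (c - a) + M q) {z : E} (hz : ⟪z, a⟫ = 0) :
    l * ⟪qp, rf a c z⟫ + l' * ⟪qm, z⟫ = Ah a c l l' M (pr a q) z := by
  have ht' := h.lf_tan hz
  have h1 : ⟪dc - da, lf a c z⟫ = ⟪M q, lf a c z⟫ := by
    rw [hr, inner_add_left, real_inner_smul_left, real_inner_comm (lf a c z) (c - a), ht']; simp
  have h2 : ⟪dc, lf a c z⟫ = ⟪dc, rf a c z⟫ := by
    rw [lf_eq_rf hz, inner_add_right, real_inner_smul_right, o2]; simp
  have h3 : ⟪da, lf a c z⟫ = ⟪da, z⟫ := by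
    rw [lf, inner_add_right, real_inner_smul_right, o1]; simp
  have h4 : ⟪qp - q, rf a c z⟫ = l' * ⟪dc, rf a c z⟫ := by
    rw [e2, inner_add_left, real_inner_smul_left, real_inner_smul_left,
      real_inner_comm (rf a c z) c, h.rf_perp hz]; simp
  have h5 : ⟪q - qm, z⟫ = l * ⟪da, z⟫ := by
    rw [e1, inner_add_left, real_inner_smul_left, real_inner_smul_left,
      real_inner_comm z a, hz]; simp
  have h6 : ⟪q, rf a c z⟫ = ⟪q, z⟫ := by rw [← inner_rf, rf_of_tan ht]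
  rw [inner_sub_left] at h1 h4 h5
  rw [Ah, h.lf_pr ht, inner_pr hz]
  rw [h2, h3] at h1
  rw [h6] at h4
  linear_combination l * h4 - l' * h5 + l * l' * h1

/-- At a vertex that does not move, directions are reflected. -/
lemma UU.fixed (h : UU a c) {mu : ℝ} {da dc : E} (o1 : ⟪da, a⟫ = 0) (o2 : ⟪dc, c⟫ = 0)
    (hr : dc - da = mu • (c - a)) : mu = -⟪da, c⟫ / (1 - ⟪a, c⟫) ∧ dc = rf a c da := by
  have h1 : dc = da + mu • (c - a) := by rw [← hr]; abel
  have h2 : mu = -⟪da, c⟫ / (1 - ⟪a, c⟫) := by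
    rw [h1, inner_add_left, real_inner_smul_left, inner_sub_left, h.hc] at o2
    rw [eq_div_iff h.ne]; linarith
  refine ⟨h2, ?_⟩
  rw [h1, h2, rf, inner_sub_right, o1, sub_zero, neg_div, neg_smul, sub_eq_add_neg]
  simp [sub_eq_add_neg]

end basic

end Pool.Agent.MP_249f74_an.H39
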