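import Pool.Agent.MP_249f74_an.H39.Alg1

/-! Closed 4-link chains and their Jacobi fields. -/

set_option autoImplicit false

namespace Pool.Agent.MP_249f74_an.H39

open scoped RealInnerProductSpace

/-- Directions, lengths and shape operators of a closed 4-link chain. -/
structure Quad (E : Type*) [NormedAddCommGroup E] [InnerProductSpace ℝ E] where
  v1 : E
  v2 : E
  v3 : E
  v4 : E
  l1 : ℝ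
  l2 : ℝ
  l3 : ℝ
  l4 : ℝ
  M1 : E →L[ℝ] E
  M2 : E →L[ℝ] E
  M3 : E →L[ℝ] E
  M4 : E →L[ℝ] E

/-- An infinitesimal variation of a chain. -/
structure Fld (E : Type*) where
  q1 : E
  q2 : E
  q3 : E
  q4 : E
  d1 : E
  d2 : E
  d3 : E
  d4 : E
  e1 : ℝ
  e2 : ℝ
  e3 : ℝ
  e4 : ℝ
  m1 : ℝ
  m2 : ℝ
  m3 : ℝ
  m4 : ℝ

variable {E : Type*} [NormedAddCommGroup E] [InnerProductSpace ℝ E]

namespace Quad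

/-- Cyclic shift. -/
def rot (Q : Quad E) : Quad E :=
  ⟨Q.v2, Q.v3, Q.v4, Q.v1, Q.l2, Q.l3, Q.l4, Q.l1, Q.M2, Q.M3, Q.M4, Q.M1⟩

/-- Non-degenerate closed chain. -/
structure Ok (Q : Quad E) : Prop where
  u1 : UU Q.v4 Q.v1
  u2 : UU Q.v1 Q.v2
  u3 : UU Q.v2 Q.v3
  u4 : UU Q.v3 Q.v4
  p1 : 0 < Q.l1
  p2 : 0 < Q.l2
  p3 : 0 < Q.l3
  p4 : 0 < Q.l4
  cl : Q.l1 • Q.v1 + Q.l2 • Q.v2 + Q.l3 • Q.v3 + Q.l4 • Q.v4 = 0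
  s1 : ∀ y z, ⟪Q.M1 y, z⟫ = ⟪Q.M1 z, y⟫
  s2 : ∀ y z, ⟪Q.M2 y, z⟫ = ⟪Q.M2 z, y⟫
  s3 : ∀ y z, ⟪Q.M3 y, z⟫ = ⟪Q.M3 z, y⟫
  s4 : ∀ y z, ⟪Q.M4 y, z⟫ = ⟪Q.M4 z, y⟫
  n1 : 1 + ⟪Q.v4, Q.v1⟫ ≠ 0
  n2 : 1 + ⟪Q.v1, Q.v2⟫ ≠ 0
  n3 : 1 + ⟪Q.v2, Q.v3⟫ ≠ 0
  n4 : 1 + ⟪Q.v3, Q.v4⟫ ≠ 0

lemma Ok.rot {Q : Quad E} (h : Q.Ok) : Q.rot.Ok :=
  ⟨h.u2, h.u3, h.u4, h.u1, h.p2, h.p3, h.p4, h.p1,
    by have := h.cl; simp only [Quad.rot]; rw [← this]; abel,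
    h.s2, h.s3, h.s4, h.s1, h.n2, h.n3, h.n4, h.n1⟩

/-- The linearised closed billiard equations. -/
structure IsFld (Q : Quad E) (F : Fld E) : Prop where
  t1 : ⟪F.q1, Q.v1 - Q.v4⟫ = 0
  t2 : ⟪F.q2, Q.v2 - Q.v1⟫ = 0
  t3 : ⟪F.q3, Q.v3 - Q.v2⟫ = 0
  t4 : ⟪F.q4, Q.v4 - Q.v3⟫ = 0
  c1 : F.q2 - F.q1 = F.e1 • Q.v1 + Q.l1 • F.d1
  c2 : F.q3 - F.q2 = F.e2 • Q.v2 + Q.l2 • F.d2
  c3 : F.q4 - F.q3 = F.e3 • Q.v3 + Q.l3 • F.d3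
  c4 : F.q1 - F.q4 = F.e4 • Q.v4 + Q.l4 • F.d4
  o1 : ⟪F.d1, Q.v1⟫ = 0
  o2 : ⟪F.d2, Q.v2⟫ = 0
  o3 : ⟪F.d3, Q.v3⟫ = 0
  o4 : ⟪F.d4, Q.v4⟫ = 0
  r1 : F.d1 - F.d4 = F.m1 • (Q.v1 - Q.v4) + Q.M1 F.q1
  r2 : F.d2 - F.d1 = F.m2 • (Q.v2 - Q.v1) + Q.M2 F.q2
  r3 : F.d3 - F.d2 = F.m3 • (Q.v3 - Q.v2) + Q.M3 F.q3
  r4 : F.d4 - F.d3 = F.m4 • (Q.v4 - Q.v3) + Q.M4 F.q4

/-- Reflections at the four vertices. -/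
noncomputable def R1 (Q : Quad E) (y : E) : E := rf Q.v4 Q.v1 y
/-- Reflections at the four vertices. -/
noncomputable def R2 (Q : Quad E) (y : E) : E := rf Q.v1 Q.v2 y
/-- Reflections at the four vertices. -/
noncomputable def R3 (Q : Quad E) (y : E) : E := rf Q.v2 Q.v3 y
/-- Reflections at the four vertices. -/
noncomputable def R4 (Q : Quad E) (y : E) : E := rf Q.v3 Q.v4 y

/-- Focusing forms. -/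
noncomputable def A2 (Q : Quad E) (y z : E) : ℝ := Ah Q.v1 Q.v2 Q.l1 Q.l2 Q.M2 y z
/-- Focusing forms. -/
noncomputable def A3 (Q : Quad E) (y z : E) : ℝ := Ah Q.v2 Q.v3 Q.l2 Q.l3 Q.M3 y z
/-- Focusing forms. -/
noncomputable def A4 (Q : Quad E) (y z : E) : ℝ := Ah Q.v3 Q.v4 Q.l3 Q.l4 Q.M4 y z

/-- Consequences of a field vanishing at the first vertex. -/
structure YF (Q : Quad E) (η Z : E) : Prop where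
  t : ⟪Z, Q.v3 - Q.v2⟫ = 0
  a2 : ∀ z, ⟪z, Q.v1⟫ = 0 → ⟪Z, Q.R2 z⟫ = Q.A2 η z
  a4 : ∀ z, ⟪z, Q.v3⟫ = 0 → ⟪Z, z⟫ = -Q.A4 (Q.R4 (Q.R1 η)) z
  a3 : ∀ z, ⟪z, Q.v2⟫ = 0 → Q.A3 (pr Q.v2 Z) z =
    Q.l1 * Q.l3 * ⟪Q.R2 η, z⟫ - Q.l2 * Q.l4 * ⟪Q.R4 (Q.R1 η), Q.R3 z⟫

variable {Q : Quad E} {F : Fld E}

lemma IsFld.y1 (hQ : Q.Ok) (h : Q.IsFld F) (h0 : F.q1 = 0) :
    F.d4 = Q.R1 F.d1 ∧ F.q2 = F.e1 • Q.v1 + Q.l1 • F.d1 ∧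
      F.q2 = F.e1 • Q.v2 + Q.l1 • Q.R2 F.d1 ∧
      F.q4 = (-F.e4) • Q.v3 + (-Q.l4) • Q.R4 (Q.R1 F.d1) := by
  have h1 := hQ.u1.fixed (mu := F.m1) h.o4 h.o1 (by rw [h.r1, h0]; simp)
  have h4 : F.d4 = Q.R1 F.d1 := by rw [h1.2, R1, hQ.u1.rf_rf]
  have h2 : F.q2 = F.e1 • Q.v1 + Q.l1 • F.d1 := by rw [← h.c1, h0, sub_zero]
  refine ⟨h4, h2, ?_, ?_⟩
  · rw [← rf_of_tan h.t2, h2, rf_add, rf_smul, rf_smul, hQ.u2.rf_a, R2]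
  · have h3 : F.q4 = (-F.e4) • Q.v4 + (-Q.l4) • F.d4 := by
      have := h.c4
      rw [h0, zero_sub] at this
      rw [neg_smul, neg_smul, ← neg_add, ← this, neg_neg]
    rw [← rf_of_tan h.t4, h3, rf_add, rf_smul, rf_smul, hQ.u4.rf_c, h4, R4]

lemma pr_comb {a y : E} (ha : ⟪a, a⟫ = (1 : ℝ)) (hy : ⟪y, a⟫ = 0) (s t : ℝ) :
    pr a (s • a + t • y) = t • y := by
  rw [pr, inner_add_left, real_inner_smul_left, real_inner_smul_left, ha, hy]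
  simp

lemma IsFld.yf (hQ : Q.Ok) (h : Q.IsFld F) (h0 : F.q1 = 0) : Q.YF F.d1 F.q3 := by
  obtain ⟨h4, h2, h2', h4'⟩ := h.y1 hQ h0
  have hp : ⟪Q.R4 (Q.R1 F.d1), Q.v3⟫ = 0 := hQ.u4.rf_perp' (hQ.u1.rf_perp' h.o1)
  refine ⟨h.t3, fun z hz => ?_, fun z hz => ?_, fun z hz => ?_⟩
  · have := hQ.u2.vertex h.t2 h.c1 h.o1 h.c2 h.o2 h.r2 hz
    rw [h0, inner_zero_left, h2, pr_comb hQ.u2.ha h.o1, Ah_smul_left] at this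
    have hl := hQ.p1.ne'
    apply mul_left_cancel₀ hl
    rw [R2, A2]; linarith
  · have := hQ.u4.vertex h.t4 h.c3 h.o3 h.c4 h.o4 h.r4 hz
    rw [h0, inner_zero_left, h4', pr_comb hQ.u4.ha hp, Ah_smul_left] at this
    have hl := hQ.p4.ne'
    apply mul_left_cancel₀ hl
    rw [A4]; linarith
  · have := hQ.u3.vertex h.t3 h.c2 h.o2 h.c3 h.o3 h.r3 hz
    have h5 : ⟪Q.v3, rf Q.v2 Q.v3 z⟫ = 0 := by rw [real_inner_comm]; exact hQ.u3.rf_perp hz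
    have h6 : ⟪Q.v2, z⟫ = 0 := by rw [real_inner_comm]; exact hz
    rw [h4', h2'] at this
    simp only [inner_add_left, real_inner_smul_left, h5, h6] at this
    rw [A3, ← this, R3]; ring

lemma IsFld.y2 (hQ : Q.Ok) (h : Q.IsFld F) (h0 : F.q2 = 0) :
    F.d2 = Q.R2 F.d1 ∧ F.m2 = -⟪F.d1, Q.v2⟫ / (1 - ⟪Q.v1, Q.v2⟫) ∧
      F.e1 = Q.l1 * ⟪F.d1, Q.v4⟫ / (1 - ⟪Q.v4, Q.v1⟫) ∧
      F.e2 = Q.l2 * ⟪Q.R2 F.d1, Q.v3⟫ / (1 - ⟪Q.v2, Q.v3⟫) ∧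
      F.q1 = (-F.e1) • Q.v1 + (-Q.l1) • F.d1 := by
  have h1 := hQ.u2.fixed (mu := F.m2) h.o1 h.o2 (by rw [h.r2, h0]; simp)
  have h2 : F.q1 = (-F.e1) • Q.v1 + (-Q.l1) • F.d1 := by
    have := h.c1
    rw [h0, zero_sub] at this
    rw [neg_smul, neg_smul, ← neg_add, ← this, neg_neg]
  have h3 : F.q3 = F.e2 • Q.v2 + Q.l2 • F.d2 := by rw [← h.c2, h0, sub_zero]
  refine ⟨h1.2, h1.1, ?_, ?_, h2⟩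
  · have := h.t1
    rw [h2] at this
    simp only [inner_add_left, real_inner_smul_left, inner_sub_right, hQ.u2.ha, h.o1,
      real_inner_comm Q.v4 Q.v1] at this
    rw [eq_div_iff hQ.u1.ne]; linarith
  · have := h.t3
    rw [h3] at this
    simp only [inner_add_left, real_inner_smul_left, inner_sub_right, hQ.u2.hc, h.o2] at this
    rw [eq_div_iff hQ.u3.ne, R2, ← h1.2]; linarith

/-- Every direction at the first vertex carries a closed field. -/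
def Y (Q : Quad E) : Prop := ∀ η, ⟪η, Q.v1⟫ = 0 → ∃ Z, Q.YF η Z

lemma Y.star (hQ : Q.Ok) (h : Q.Y) {η z : E} (hη : ⟪η, Q.v1⟫ = 0) (hz : ⟪z, Q.v3⟫ = 0) :
    Q.A2 η (Q.R2 (Q.R3 z)) = -Q.A4 (Q.R4 (Q.R1 η)) z := by
  obtain ⟨Z, hZ⟩ := h η hη
  have h1 : ⟪Q.R2 (Q.R3 z), Q.v1⟫ = 0 := hQ.u2.rf_perp' (hQ.u3.rf_perp' hz)
  rw [← hZ.a2 _ h1, ← hZ.a4 _ hz, R2, R2, hQ.u2.rf_rf, R3, ← inner_rf, rf_of_tan hZ.t]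

end Quad

end Pool.Agent.MP_249f74_an.H39
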