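import Pool.Agent.MP_249f74_an.H39.Alg2

/-! Gram computations for closed 4-link chains. -/

set_option autoImplicit false

namespace Pool.Agent.MP_249f74_an.H39

open scoped RealInnerProductSpace

/-- Gram determinant of three unit vectors. -/
def g3 (a b e : ℝ) : ℝ := 1 - a ^ 2 - b ^ 2 - e ^ 2 + 2 * a * b * e

/-- Gram determinant of four unit vectors. -/
def g4 (a b c d e f : ℝ) : ℝ :=
  1 - a^2 - b^2 - c^2 - d^2 - e^2 - f^2 + 2*a*b*e + 2*a*d*f + 2*b*c*f + 2*c*d*e - 2*a*b*c*d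
    - 2*a*c*e*f + a^2*c^2 - 2*b*d*e*f + b^2*d^2 + e^2*f^2

/-- Cosine of half the holonomy angle, up to a positive factor. -/
def c4 (a b c d e f : ℝ) : ℝ := 1 - a - b - c - d + e + f + a * c + b * d - e * f

/-- Sine of half the holonomy angle, up to a non-zero factor. -/
def sn4 (a b c d e f : ℝ) : ℝ :=
  -1 + c + d + f - a*d - a*f + a^2 - b*c - b*f + b^2 - c*e - d*e + e^2 + a*b*c + a*b*d
    - 2*a*b*e + a*c*e + a*e*f - a^2*c + b*d*e + b*e*f - b^2*d - e^2*f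

/-- Scaled inner product through four reflections. -/
def oip (a b c d e f u1 u2 u3 u4 w1 w2 w3 w4 uw : ℝ) : ℝ :=
  (1-a)*(1-b)*(1-c)*(1-d)*uw - (w2-w1)*(1-b)*(1-c)*(1-d)*(u2-u1)
    - ((w3-w2)*(1-a) - (w2-w1)*(b-1-e+a))*(1-c)*(1-d)*(u3-u2)
    - (u1-u4)*(1-a)*(1-b)*(1-c)*(w1-w4)
    - ((u4-u3)*(1-d) - (u1-u4)*(d-e-1+c))*(1-a)*(1-b)*(w4-w3)
    + (u1-u4)*(w2-w1)*(1-b)*(1-c)*(a-1-f+d)
    + (u1-u4)*((w3-w2)*(1-a) - (w2-w1)*(b-1-e+a))*(1-c)*(e-a-c+f)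
    + ((u4-u3)*(1-d) - (u1-u4)*(d-e-1+c))*(w2-w1)*(1-b)*(f-d-b+e)
    + ((u4-u3)*(1-d) - (u1-u4)*(d-e-1+c))*((w3-w2)*(1-a) - (w2-w1)*(b-1-e+a))*(c-f-1+b)

variable {E : Type*} [NormedAddCommGroup E] [InnerProductSpace ℝ E]

namespace Quad

/-- Gram entries. -/
noncomputable def a (Q : Quad E) : ℝ := ⟪Q.v1, Q.v2⟫
/-- Gram entries. -/
noncomputable def b (Q : Quad E) : ℝ := ⟪Q.v2, Q.v3⟫
/-- Gram entries. -/
noncomputable def c (Q : Quad E) : ℝ := ⟪Q.v3, Q.v4⟫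
/-- Gram entries. -/
noncomputable def d (Q : Quad E) : ℝ := ⟪Q.v4, Q.v1⟫
/-- Gram entries. -/
noncomputable def e (Q : Quad E) : ℝ := ⟪Q.v1, Q.v3⟫
/-- Gram entries. -/
noncomputable def f (Q : Quad E) : ℝ := ⟪Q.v2, Q.v4⟫

variable {Q : Quad E}

lemma g12 : ⟪Q.v1, Q.v2⟫ = Q.a := rfl
lemma g23 : ⟪Q.v2, Q.v3⟫ = Q.b := rfl
lemma g34 : ⟪Q.v3, Q.v4⟫ = Q.c := rfl
lemma g41 : ⟪Q.v4, Q.v1⟫ = Q.d := rfl
lemma g13 : ⟪Q.v1, Q.v3⟫ = Q.e := rfl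
lemma g24 : ⟪Q.v2, Q.v4⟫ = Q.f := rfl
lemma g21 : ⟪Q.v2, Q.v1⟫ = Q.a := real_inner_comm _ _
lemma g32 : ⟪Q.v3, Q.v2⟫ = Q.b := real_inner_comm _ _
lemma g43 : ⟪Q.v4, Q.v3⟫ = Q.c := real_inner_comm _ _
lemma g14 : ⟪Q.v1, Q.v4⟫ = Q.d := real_inner_comm _ _
lemma g31 : ⟪Q.v3, Q.v1⟫ = Q.e := real_inner_comm _ _
lemma g42 : ⟪Q.v4, Q.v2⟫ = Q.f := real_inner_comm _ _

lemma rot_a : Q.rot.a = Q.b := rfl
lemma rot_b : Q.rot.b = Q.c := rfl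
lemma rot_c : Q.rot.c = Q.d := rfl
lemma rot_d : Q.rot.d = Q.a := rfl
lemma rot_e : Q.rot.e = Q.f := rfl
lemma rot_f : Q.rot.f = Q.e := real_inner_comm _ _

lemma Ok.na (h : Q.Ok) : 1 - Q.a ≠ 0 := h.u2.ne
lemma Ok.nb (h : Q.Ok) : 1 - Q.b ≠ 0 := h.u3.ne
lemma Ok.nc (h : Q.Ok) : 1 - Q.c ≠ 0 := h.u4.ne
lemma Ok.nd (h : Q.Ok) : 1 - Q.d ≠ 0 := h.u1.ne

lemma abs_le_of_unit {x y : E} (hx : ⟪x, x⟫ = (1 : ℝ)) (hy : ⟪y, y⟫ = (1 : ℝ)) :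
    -1 ≤ ⟪x, y⟫ ∧ ⟪x, y⟫ ≤ 1 := by
  have h1 := real_inner_self_nonneg (x := x - y)
  have h2 := real_inner_self_nonneg (x := x + y)
  simp only [inner_sub_left, inner_sub_right, inner_add_left, inner_add_right, hx, hy,
    real_inner_comm x y] at h1 h2
  constructor <;> linarith

lemma Ok.ba (h : Q.Ok) : 0 < 1 - Q.a ∧ 0 < 1 + Q.a := by
  have := abs_le_of_unit h.u2.ha h.u2.hc
  exact ⟨lt_of_le_of_ne (by rw [← g12]; linarith) h.na.symm,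
    lt_of_le_of_ne (by rw [← g12]; linarith) h.n2.symm⟩

lemma Ok.bb (h : Q.Ok) : 0 < 1 - Q.b ∧ 0 < 1 + Q.b := h.rot.ba
lemma Ok.bc (h : Q.Ok) : 0 < 1 - Q.c ∧ 0 < 1 + Q.c := h.rot.rot.ba
lemma Ok.bd (h : Q.Ok) : 0 < 1 - Q.d ∧ 0 < 1 + Q.d := h.rot.rot.rot.ba

lemma Ok.be (h : Q.Ok) : -1 ≤ Q.e ∧ Q.e ≤ 1 := abs_le_of_unit h.u2.ha h.u4.ha
lemma Ok.bf (h : Q.Ok) : -1 ≤ Q.f ∧ Q.f ≤ 1 := abs_le_of_unit h.u2.hc h.u4.hc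

lemma Ok.ya (h : Q.Ok) : 0 < 1 - Q.a ^ 2 := by
  have := h.ba; nlinarith [mul_pos this.1 this.2]

lemma Ok.cl_inner (h : Q.Ok) (z : E) :
    Q.l1 * ⟪Q.v1, z⟫ + Q.l2 * ⟪Q.v2, z⟫ + Q.l3 * ⟪Q.v3, z⟫ + Q.l4 * ⟪Q.v4, z⟫ = 0 := by
  have := congrArg (fun u => ⟪u, z⟫) h.cl
  simpa only [inner_add_left, real_inner_smul_left, inner_zero_left] using this

lemma Ok.k1 (h : Q.Ok) : Q.l1 + Q.l2 * Q.a + Q.l3 * Q.e + Q.l4 * Q.d = 0 := by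
  simpa only [h.u2.ha, g21, g31, g41, mul_one] using h.cl_inner Q.v1
lemma Ok.k2 (h : Q.Ok) : Q.l1 * Q.a + Q.l2 + Q.l3 * Q.b + Q.l4 * Q.f = 0 := by
  simpa only [h.u2.hc, g12, g32, g42, mul_one] using h.cl_inner Q.v2
lemma Ok.k3 (h : Q.Ok) : Q.l1 * Q.e + Q.l2 * Q.b + Q.l3 + Q.l4 * Q.c = 0 := by
  simpa only [h.u4.ha, g13, g23, g43, mul_one] using h.cl_inner Q.v3
lemma Ok.k4 (h : Q.Ok) : Q.l1 * Q.d + Q.l2 * Q.f + Q.l3 * Q.c + Q.l4 = 0 := by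
  simpa only [h.u4.hc, g14, g24, g34, mul_one] using h.cl_inner Q.v4

lemma Ok.g4_zero (h : Q.Ok) : g4 Q.a Q.b Q.c Q.d Q.e Q.f = 0 := by
  apply mul_left_cancel₀ h.p1.ne'
  have k1 := h.k1; have k2 := h.k2; have k3 := h.k3; have k4 := h.k4
  unfold g4
  generalize Q.a = a at *; generalize Q.b = b at *; generalize Q.c = c at *
  generalize Q.d = d at *; generalize Q.e = e at *; generalize Q.f = f at *
  linear_combination (1 - b^2 - c^2 - f^2 + 2*b*c*f) * k1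
    + (-a + b*e + d*f + a*c^2 - b*c*d - c*e*f) * k2
    + (-e + a*b + c*d - a*c*f - b*d*f + e*f^2) * k3
    + (-d + a*f + c*e - a*b*c - b*e*f + b^2*d) * k4

lemma Ok.s4_eq (h : Q.Ok) : Q.l4 * sn4 Q.a Q.b Q.c Q.d Q.e Q.f =
    -(Q.l1 + Q.l2 + Q.l3 + Q.l4) * g3 Q.a Q.b Q.e := by
  have k1 := h.k1; have k2 := h.k2; have k3 := h.k3
  unfold sn4 g3
  generalize Q.a = a at *; generalize Q.b = b at *; generalize Q.c = c at *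
  generalize Q.d = d at *; generalize Q.e = e at *; generalize Q.f = f at *
  linear_combination (1 - a - e + a*b + b*e - b^2) * k1 + (1 - a - b + a*e + b*e - e^2) * k2
    + (1 - b - e + a*b + a*e - a^2) * k3

lemma Ok.g3_rot (h : Q.Ok) : Q.l4 ^ 2 * g3 Q.b Q.c Q.f = Q.l1 ^ 2 * g3 Q.a Q.b Q.e := by
  have k1 := h.k1; have k2 := h.k2; have k3 := h.k3; have k4 := h.k4
  unfold g3
  generalize Q.a = a at *; generalize Q.b = b at *; generalize Q.c = c at *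
  generalize Q.d = d at *; generalize Q.e = e at *; generalize Q.f = f at *
  linear_combination Q.l4 * ((-f + b*c) * k2 + (-c + b*f) * k3 + (1 - b^2) * k4)
    - Q.l1 * ((-a + b*e) * k2 + (-e + a*b) * k3 + (1 - b^2) * k1)

/-- In-plane vector at the second vertex. -/
noncomputable def y (Q : Quad E) : E := pr Q.v1 Q.v2
/-- Binormal at the second vertex. -/
noncomputable def bn (Q : Quad E) : E := bin Q.v1 Q.v2 Q.v3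

lemma Ok.y1 (h : Q.Ok) : ⟪Q.y, Q.v1⟫ = 0 := pr_perp h.u2.ha _
lemma Ok.y2 (h : Q.Ok) : ⟪Q.y, Q.v2⟫ = 1 - Q.a ^ 2 := by
  simp only [y, pr, inner_sub_left, real_inner_smul_left, h.u2.hc, g12, g21]; ring
lemma y3 : ⟪Q.y, Q.v3⟫ = Q.b - Q.a * Q.e := by
  simp only [y, pr, inner_sub_left, real_inner_smul_left, g13, g21, g23]
lemma y4 : ⟪Q.y, Q.v4⟫ = Q.f - Q.a * Q.d := by
  simp only [y, pr, inner_sub_left, real_inner_smul_left, g14, g21, g24]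
lemma Ok.yy (h : Q.Ok) : ⟪Q.y, Q.y⟫ = 1 - Q.a ^ 2 := h.u2.inner_prc
lemma Ok.b1 (h : Q.Ok) : ⟪Q.bn, Q.v1⟫ = 0 := h.u2.bin_a _
lemma Ok.b2 (h : Q.Ok) : ⟪Q.bn, Q.v2⟫ = 0 := h.u2.bin_c _
lemma Ok.b3 (h : Q.Ok) : ⟪Q.bn, Q.v3⟫ = g3 Q.a Q.b Q.e := by
  simp only [bn, bin, inner_sub_left, real_inner_smul_left, h.u4.ha, g12, g31, g32, g13, g23, g3]
  ring
lemma b4 : ⟪Q.bn, Q.v4⟫ = Q.c - Q.b * Q.f - Q.d * Q.e + Q.a * Q.b * Q.d + Q.a * Q.e * Q.f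
    - Q.a ^ 2 * Q.c := by
  simp only [bn, bin, inner_sub_left, real_inner_smul_left, g12, g31, g32, g14, g24, g34]
  ring
lemma Ok.yb (h : Q.Ok) : ⟪Q.y, Q.bn⟫ = 0 := by
  rw [y, pr, inner_sub_left, real_inner_smul_left, real_inner_comm, h.b2, real_inner_comm Q.bn,
    h.b1]; simp
lemma Ok.by' (h : Q.Ok) : ⟪Q.bn, Q.y⟫ = 0 := by rw [real_inner_comm, h.yb]
lemma Ok.bb' (h : Q.Ok) : ⟪Q.bn, Q.bn⟫ = (1 - Q.a ^ 2) * g3 Q.a Q.b Q.e := by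
  conv_lhs => rw [real_inner_comm]; arg 3; rw [bn, bin]
  simp only [inner_sub_right, real_inner_smul_right, h.b1, h.b2, h.b3, g12]
  ring

lemma Ok.oip_eq (h : Q.Ok) (u w : E) :
    (1 - Q.a) * (1 - Q.b) * (1 - Q.c) * (1 - Q.d) * ⟪Q.R4 (Q.R1 u), Q.R3 (Q.R2 w)⟫ =
      oip Q.a Q.b Q.c Q.d Q.e Q.f ⟪u, Q.v1⟫ ⟪u, Q.v2⟫ ⟪u, Q.v3⟫ ⟪u, Q.v4⟫
        ⟪w, Q.v1⟫ ⟪w, Q.v2⟫ ⟪w, Q.v3⟫ ⟪w, Q.v4⟫ ⟪u, w⟫ := by
  have na := h.na; have nb := h.nb; have nc := h.nc; have nd := h.nd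
  simp only [R1, R2, R3, R4, rf, inner_sub_left, inner_sub_right, real_inner_smul_left,
    real_inner_smul_right, h.u2.ha, h.u2.hc, h.u4.ha, h.u4.hc, g12, g13, g14, g23,
    g31, g32, g34, g41, g42, g43, real_inner_comm w, oip]
  field_simp
  ring

end Quad

end Pool.Agent.MP_249f74_an.H39
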