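import Pool.Agent.MP_249f74_an.H39.Alg3

/-! The holonomy of a closed 4-link chain on its span. -/

set_option autoImplicit false

namespace Pool.Agent.MP_249f74_an.H39

open scoped RealInnerProductSpace

lemma oip_yy {a b c d e f : ℝ} (h : g4 a b c d e f = 0) :
    oip a b c d e f 0 (1 - a^2) (b - a*e) (f - a*d) 0 (1 - a^2) (b - a*e) (f - a*d) (1 - a^2)
      = (c4 a b c d e f ^ 2 / 2 - (1-a)*(1-b)*(1-c)*(1-d)) * (1 - a^2) := by
  unfold oip c4; unfold g4 at h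
  linear_combination ((1/2) - a + (1/2)*a^2) * h

lemma oip_yb {a b c d e f : ℝ} (h : g4 a b c d e f = 0) :
    oip a b c d e f 0 (1 - a^2) (b - a*e) (f - a*d) 0 0 (g3 a b e)
      (c - b*f - d*e + a*b*d + a*e*f - a^2*c) 0
      = -(c4 a b c d e f * sn4 a b c d e f * (1 - a^2) / 2) := by
  unfold oip c4 sn4 g3; unfold g4 at h
  linear_combination ((1/2) - (1/2)*a - (1/2)*b - (1/2)*e + a*b + a*e - (1/2)*a^2
    - (1/2)*a^2*b - (1/2)*a^2*e + (1/2)*a^3) * h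

lemma oip_by {a b c d e f : ℝ} (h : g4 a b c d e f = 0) :
    oip a b c d e f 0 0 (g3 a b e) (c - b*f - d*e + a*b*d + a*e*f - a^2*c)
      0 (1 - a^2) (b - a*e) (f - a*d) 0
      = c4 a b c d e f * sn4 a b c d e f * (1 - a^2) / 2 := by
  unfold oip c4 sn4 g3; unfold g4 at h
  linear_combination ((1/2) - (1/2)*a - (1/2)*b - (1/2)*e + a*b + a*e - (1/2)*a^2
    - (1/2)*a^2*b - (1/2)*a^2*e + (1/2)*a^3) * h

lemma oip_bb {a b c d e f : ℝ} (h : g4 a b c d e f = 0) :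
    oip a b c d e f 0 0 (g3 a b e) (c - b*f - d*e + a*b*d + a*e*f - a^2*c)
      0 0 (g3 a b e) (c - b*f - d*e + a*b*d + a*e*f - a^2*c) ((1 - a^2) * g3 a b e)
      = (c4 a b c d e f ^ 2 / 2 - (1-a)*(1-b)*(1-c)*(1-d)) * ((1 - a^2) * g3 a b e) := by
  unfold oip c4 g3; unfold g4 at h
  linear_combination ((1/2) - b - e + a*b + a*e - a^2 + b*e + (1/2)*b^2 + (1/2)*e^2 - 2*a*b*e
    - a*b^2 - a*e^2 + a^2*b + a^2*e + a^2*b*e + (1/2)*a^2*b^2 + (1/2)*a^2*e^2 - a^3*b - a^3*e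
    + (1/2)*a^4) * h

variable {E : Type*} [NormedAddCommGroup E] [InnerProductSpace ℝ E]

namespace Quad

/-- The span of the four directions. -/
def P (Q : Quad E) : Submodule ℝ E := Submodule.span ℝ {Q.v1, Q.v2, Q.v3, Q.v4}

/-- Orthogonal to all four directions. -/
def Perp (Q : Quad E) (w : E) : Prop :=
  ⟪w, Q.v1⟫ = 0 ∧ ⟪w, Q.v2⟫ = 0 ∧ ⟪w, Q.v3⟫ = 0 ∧ ⟪w, Q.v4⟫ = 0

/-- Holonomy. -/
noncomputable def O (Q : Quad E) (u : E) : E := Q.R2 (Q.R3 (Q.R4 (Q.R1 u)))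

variable {Q : Quad E}

lemma P_rot : Q.rot.P = Q.P := by
  simp only [P, rot]
  congr 1
  ext x
  simp only [Set.mem_insert_iff, Set.mem_singleton_iff]
  tauto

lemma m1 : Q.v1 ∈ Q.P := Submodule.subset_span (by simp)
lemma m2 : Q.v2 ∈ Q.P := Submodule.subset_span (by simp)
lemma m3 : Q.v3 ∈ Q.P := Submodule.subset_span (by simp)
lemma m4 : Q.v4 ∈ Q.P := Submodule.subset_span (by simp)

lemma rf_mem {S : Submodule ℝ E} {a c u : E} (ha : a ∈ S) (hc : c ∈ S) (hu : u ∈ S) :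
    rf a c u ∈ S := S.sub_mem hu (S.smul_mem _ (S.sub_mem hc ha))
lemma pr_mem {S : Submodule ℝ E} {a u : E} (ha : a ∈ S) (hu : u ∈ S) : pr a u ∈ S :=
  S.sub_mem hu (S.smul_mem _ ha)
lemma bin_mem {S : Submodule ℝ E} {a c u : E} (ha : a ∈ S) (hc : c ∈ S) (hu : u ∈ S) :
    bin a c u ∈ S := S.sub_mem (S.sub_mem (S.smul_mem _ hu) (S.smul_mem _ ha)) (S.smul_mem _ hc)

lemma R1_mem {u : E} (hu : u ∈ Q.P) : Q.R1 u ∈ Q.P := rf_mem m4 m1 hu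
lemma R2_mem {u : E} (hu : u ∈ Q.P) : Q.R2 u ∈ Q.P := rf_mem m1 m2 hu
lemma R3_mem {u : E} (hu : u ∈ Q.P) : Q.R3 u ∈ Q.P := rf_mem m2 m3 hu
lemma R4_mem {u : E} (hu : u ∈ Q.P) : Q.R4 u ∈ Q.P := rf_mem m3 m4 hu
lemma y_mem : Q.y ∈ Q.P := pr_mem m1 m2
lemma bn_mem : Q.bn ∈ Q.P := bin_mem m1 m2 m3

lemma Perp.rot {w : E} (h : Q.Perp w) : Q.rot.Perp w := ⟨h.2.1, h.2.2.1, h.2.2.2, h.1⟩

lemma Perp.inner_mem {w u : E} (h : Q.Perp w) (hu : u ∈ Q.P) : ⟪w, u⟫ = 0 := by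
  induction hu using Submodule.span_induction with
  | mem x hx =>
    simp only [Set.mem_insert_iff, Set.mem_singleton_iff] at hx
    rcases hx with rfl | rfl | rfl | rfl
    exacts [h.1, h.2.1, h.2.2.1, h.2.2.2]
  | zero => simp
  | add x y _ _ hx hy => rw [inner_add_right, hx, hy, add_zero]
  | smul t x _ hx => rw [real_inner_smul_right, hx, mul_zero]

lemma Ok.expand (h : Q.Ok) {u : E} (hu : u ∈ Q.P) (h1 : ⟪u, Q.v1⟫ = 0) :
    ∃ α β : ℝ, u = α • Q.y + β • Q.bn := by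
  have key : ∃ γ α β : ℝ, u = γ • Q.v1 + (α • Q.y + β • Q.bn) := by
    let T : Submodule ℝ E := Submodule.span ℝ {Q.v1, Q.y, Q.bn}
    have t1 : Q.v1 ∈ T := Submodule.subset_span (by simp)
    have ty : Q.y ∈ T := Submodule.subset_span (by simp)
    have tb : Q.bn ∈ T := Submodule.subset_span (by simp)
    have t2 : Q.v2 ∈ T := by
      have : Q.v2 = Q.y + ⟪Q.v2, Q.v1⟫ • Q.v1 := by simp [y, pr]
      rw [this]; exact T.add_mem ty (T.smul_mem _ t1)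
    have t3 : Q.v3 ∈ T := by
      have h3 : (1 - Q.a ^ 2) • Q.v3 ∈ T := by
        have : (1 - Q.a ^ 2) • Q.v3 = Q.bn + (⟪Q.v3, Q.v1⟫ - Q.a * ⟪Q.v3, Q.v2⟫) • Q.v1
            + (⟪Q.v3, Q.v2⟫ - Q.a * ⟪Q.v3, Q.v1⟫) • Q.v2 := by
          simp only [bn, bin, g12]; abel
        rw [this]; exact T.add_mem (T.add_mem tb (T.smul_mem _ t1)) (T.smul_mem _ t2)
      exact (T.smul_mem_iff h.ya.ne').1 h3
    have t4 : Q.v4 ∈ T := by
      have h4 : Q.l4 • Q.v4 = -(Q.l1 • Q.v1 + Q.l2 • Q.v2 + Q.l3 • Q.v3) :=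
        eq_neg_of_add_eq_zero_right h.cl
      refine (T.smul_mem_iff h.p4.ne').1 ?_
      rw [h4]
      exact T.neg_mem (T.add_mem (T.add_mem (T.smul_mem _ t1) (T.smul_mem _ t2)) (T.smul_mem _ t3))
    have hT : Q.P ≤ T := by
      rw [P, Submodule.span_le]
      intro x hx
      simp only [Set.mem_insert_iff, Set.mem_singleton_iff] at hx
      rcases hx with rfl | rfl | rfl | rfl
      exacts [t1, t2, t3, t4]
    have := hT hu
    rw [Submodule.mem_span_triple] at this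
    obtain ⟨γ, α, β, hh⟩ := this
    exact ⟨γ, α, β, by rw [← hh]; abel⟩
  obtain ⟨γ, α, β, hh⟩ := key
  have : γ = 0 := by
    rw [hh] at h1
    simpa only [inner_add_left, real_inner_smul_left, h.u2.ha, h.y1, h.b1, mul_one, mul_zero,
      add_zero] using h1
  exact ⟨α, β, by rw [hh, this, zero_smul, zero_add]⟩

lemma Ok.perp_of (h : Q.Ok) {w : E} (h1 : ⟪w, Q.v1⟫ = 0) (h2 : ⟪w, Q.v2⟫ = 0)
    (hb : ⟪w, Q.bn⟫ = 0) : Q.Perp w := by
  have h3 : ⟪w, Q.v3⟫ = 0 := by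
    simp only [bn, bin, inner_sub_right, real_inner_smul_right, h1, h2, mul_zero, sub_zero,
      g12] at hb
    exact (mul_eq_zero.1 hb).resolve_left h.ya.ne'
  refine ⟨h1, h2, h3, ?_⟩
  have := h.cl_inner w
  rw [real_inner_comm w, real_inner_comm w, real_inner_comm w, real_inner_comm w, h1, h2, h3]
    at this
  simpa [h.p4.ne'] using this

lemma Ok.R41_perp (h : Q.Ok) {u : E} (hu : ⟪u, Q.v1⟫ = 0) : ⟪Q.R4 (Q.R1 u), Q.v3⟫ = 0 :=
  h.u4.rf_perp' (h.u1.rf_perp' hu)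
lemma Ok.R23_perp (h : Q.Ok) {u : E} (hu : ⟪u, Q.v3⟫ = 0) : ⟪Q.R2 (Q.R3 u), Q.v1⟫ = 0 :=
  h.u2.rf_perp' (h.u3.rf_perp' hu)
lemma Ok.O_perp (h : Q.Ok) {u : E} (hu : ⟪u, Q.v1⟫ = 0) : ⟪Q.O u, Q.v1⟫ = 0 :=
  h.R23_perp (h.R41_perp hu)
lemma O_mem {u : E} (hu : u ∈ Q.P) : Q.O u ∈ Q.P := R2_mem (R3_mem (R4_mem (R1_mem hu)))
lemma inner_O (u w : E) : ⟪Q.O u, w⟫ = ⟪Q.R4 (Q.R1 u), Q.R3 (Q.R2 w)⟫ := by
  rw [O, R2, inner_rf, R3, inner_rf]; rfl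

/-- Non-planarity. -/
def NP (Q : Quad E) : Prop := g3 Q.a Q.b Q.e ≠ 0

/-- The holonomy invariant. -/
noncomputable def C (Q : Quad E) : ℝ := c4 Q.a Q.b Q.c Q.d Q.e Q.f

lemma C_rot : Q.rot.C = Q.C := by
  simp only [C, rot_a, rot_b, rot_c, rot_d, rot_e, rot_f, c4]; ring

lemma Ok.NP_rot (h : Q.Ok) : Q.rot.NP ↔ Q.NP := by
  have := h.g3_rot
  simp only [NP, rot_a, rot_b, rot_e]
  have p1 := h.p1; have p4 := h.p4
  constructor
  · intro h1 h2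
    rw [h2, mul_zero] at this
    exact h1 ((mul_eq_zero.1 this).resolve_left (by positivity))
  · intro h1 h2
    rw [h2, mul_zero] at this
    exact h1 ((mul_eq_zero.1 this.symm).resolve_left (by positivity))

lemma Ok.bb_pos (h : Q.Ok) (hn : Q.NP) : 0 < ⟪Q.bn, Q.bn⟫ := by
  refine lt_of_le_of_ne real_inner_self_nonneg ?_
  rw [h.bb']
  exact (mul_ne_zero h.ya.ne' hn).symm

lemma Ok.holonomy (h : Q.Ok) (hn : Q.NP) : ∃ c0 α β : ℝ,
    Q.O Q.y = c0 • Q.y + β • Q.bn ∧ Q.O Q.bn = α • Q.y + c0 • Q.bn ∧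
      β * ⟪Q.bn, Q.bn⟫ = -α * (1 - Q.a ^ 2) ∧ (Q.C ≠ 0 → β ≠ 0) ∧
      (Q.C = 0 → c0 = -1 ∧ β = 0 ∧ α = 0) := by
  obtain ⟨α1, β1, h1⟩ := h.expand (O_mem y_mem) (h.O_perp h.y1)
  obtain ⟨α2, β2, h2⟩ := h.expand (O_mem bn_mem) (h.O_perp h.b1)
  have hg := h.g4_zero
  have hPi : (1 - Q.a) * (1 - Q.b) * (1 - Q.c) * (1 - Q.d) ≠ 0 :=
    mul_ne_zero (mul_ne_zero (mul_ne_zero h.na h.nb) h.nc) h.nd
  have hy := h.ya
  have hb := h.bb_pos hn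
  have e1 := h.oip_eq Q.y Q.y
  have e2 := h.oip_eq Q.y Q.bn
  have e3 := h.oip_eq Q.bn Q.y
  have e4 := h.oip_eq Q.bn Q.bn
  rw [← inner_O] at e1 e2 e3 e4
  rw [h.y1, h.y2, y3, y4, h.yy, oip_yy hg, h1] at e1
  rw [h.y1, h.y2, y3, y4, h.b1, h.b2, h.b3, b4, h.yb, oip_yb hg, h1] at e2
  rw [h.y1, h.y2, y3, y4, h.b1, h.b2, h.b3, b4, h.by', oip_by hg, h2] at e3
  rw [h.b1, h.b2, h.b3, b4, h.bb', oip_bb hg, ← h.bb', h2] at e4
  simp only [inner_add_left, real_inner_smul_left, h.yy, h.yb, h.by', mul_zero, add_zero,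
    zero_add] at e1 e2 e3 e4
  have hs : sn4 Q.a Q.b Q.c Q.d Q.e Q.f ≠ 0 := by
    intro h0
    have := h.s4_eq
    rw [h0, mul_zero] at this
    have p1 := h.p1; have p2 := h.p2; have p3 := h.p3; have p4 := h.p4
    exact hn ((mul_eq_zero.1 this.symm).resolve_left (by linarith))
  change _ = (Q.C ^ 2 / 2 - _) * _ at e1 e4
  change _ = -(Q.C * _ * _ / 2) at e2
  change _ = Q.C * _ * _ / 2 at e3
  set p := (1 - Q.a) * (1 - Q.b) * (1 - Q.c) * (1 - Q.d) with hp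
  have f1 : p * α1 = Q.C ^ 2 / 2 - p := mul_right_cancel₀ hy.ne' (by linear_combination e1)
  have f4 : p * β2 = Q.C ^ 2 / 2 - p := mul_right_cancel₀ hb.ne' (by linear_combination e4)
  have f5 : β2 = α1 := mul_left_cancel₀ hPi (by rw [f1, f4])
  refine ⟨α1, α2, β1, h1, by rw [h2, f5], mul_left_cancel₀ hPi (by linear_combination e2 + e3),
    fun hC h0 => ?_, fun hC => ⟨?_, ?_, ?_⟩⟩
  · rw [h0] at e2
    have : Q.C * sn4 Q.a Q.b Q.c Q.d Q.e Q.f * (1 - Q.a ^ 2) = 0 := by linear_combination 2 * e2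
    exact mul_ne_zero (mul_ne_zero hC hs) hy.ne' this
  · rw [hC] at f1
    exact mul_left_cancel₀ hPi (by linear_combination f1)
  · rw [hC] at e2
    have : p * ⟪Q.bn, Q.bn⟫ * β1 = 0 := by linear_combination e2
    exact (mul_eq_zero.1 this).resolve_left (mul_ne_zero hPi hb.ne')
  · rw [hC] at e3
    have : p * (1 - Q.a ^ 2) * α2 = 0 := by linear_combination e3
    exact (mul_eq_zero.1 this).resolve_left (mul_ne_zero hPi hy.ne')

end Quad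

end Pool.Agent.MP_249f74_an.H39
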