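import Pool.Agent.MP_249f74_an.H39.Alg4

/-! The generic non-planar case. -/

set_option autoImplicit false

namespace Pool.Agent.MP_249f74_an.H39

open scoped RealInnerProductSpace

variable {E : Type*} [NormedAddCommGroup E] [InnerProductSpace ℝ E]

namespace Quad

variable {Q : Quad E}

lemma Ok.A2_symm (h : Q.Ok) (y z : E) : Q.A2 y z = Q.A2 z y := Ah_symm h.s2 y z
lemma Ok.A3_symm (h : Q.Ok) (y z : E) : Q.A3 y z = Q.A3 z y := Ah_symm h.s3 y z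
lemma Ok.A4_symm (h : Q.Ok) (y z : E) : Q.A4 y z = Q.A4 z y := Ah_symm h.s4 y z

lemma A2_comb (u y z : E) (s t : ℝ) : Q.A2 u (s • y + t • z) = s * Q.A2 u y + t * Q.A2 u z := by
  rw [A2, Ah_add, Ah_smul, Ah_smul]; rfl

lemma Y.symO (h : Q.Ok) (hY : Q.Y) {u w : E} (hu : ⟪u, Q.v1⟫ = 0) (hw : ⟪w, Q.v1⟫ = 0) :
    Q.A2 u (Q.O w) = Q.A2 w (Q.O u) := by
  rw [O, O, hY.star h hu (h.R41_perp hw), hY.star h hw (h.R41_perp hu), h.A4_symm]

lemma Perp.O_eq {w : E} (hw : Q.Perp w) : Q.O w = w := by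
  rw [O, R1, rf_of_perp hw.2.2.2 hw.1, R4, rf_of_perp hw.2.2.1 hw.2.2.2, R3,
    rf_of_perp hw.2.1 hw.2.2.1, R2, rf_of_perp hw.1 hw.2.1]

/-- The focusing form does not couple the span with its orthogonal complement. -/
def PP (Q : Quad E) : Prop := ∀ w u, Q.Perp w → u ∈ Q.P → ⟪u, Q.v1⟫ = 0 → Q.A2 w u = 0

lemma Y.pp (h : Q.Ok) (hn : Q.NP) (hY : Q.Y) : Q.PP := by
  intro w u hw hu hu1
  obtain ⟨c0, α, β, h1, h2, h3, h4, h5⟩ := h.holonomy hn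
  have e1 := hY.symO h hw.1 h.y1
  have e2 := hY.symO h hw.1 h.b1
  rw [hw.O_eq, h1, A2_comb, h.A2_symm Q.y w] at e1
  rw [hw.O_eq, h2, A2_comb, h.A2_symm Q.bn w] at e2
  have hy := h.ya
  have hb := h.bb_pos hn
  have hD : (1 - c0) ^ 2 - α * β ≠ 0 := by
    by_cases hC : Q.C = 0
    · obtain ⟨r1, r2, r3⟩ := h5 hC
      rw [r1, r2]; norm_num
    · have hβ := h4 hC
      have : 0 < ((1 - c0) ^ 2 - α * β) * (1 - Q.a ^ 2) := by
        have : ((1 - c0) ^ 2 - α * β) * (1 - Q.a ^ 2) =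
            (1 - c0) ^ 2 * (1 - Q.a ^ 2) + β ^ 2 * ⟪Q.bn, Q.bn⟫ := by
          linear_combination (-β) * h3
        rw [this]; positivity
      intro h0
      rw [h0, zero_mul] at this
      exact lt_irrefl _ this
  have x0 : Q.A2 w Q.y = 0 := by
    apply mul_left_cancel₀ hD
    linear_combination (-(1 - c0)) * e1 - β * e2
  have z0 : Q.A2 w Q.bn = 0 := by
    apply mul_left_cancel₀ hD
    linear_combination (-(1 - c0)) * e2 - α * e1
  obtain ⟨s, t, rfl⟩ := h.expand hu hu1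
  rw [A2_comb, x0, z0]; ring

/-- Vanishing trace of the focusing form on the span. -/
def TR (Q : Quad E) : Prop :=
  Q.A2 Q.y Q.y * ⟪Q.bn, Q.bn⟫ + Q.A2 Q.bn Q.bn * (1 - Q.a ^ 2) = 0

lemma Y.tr (h : Q.Ok) (hn : Q.NP) (hC : Q.C ≠ 0) (hY : Q.Y) : Q.TR := by
  obtain ⟨c0, α, β, h1, h2, h3, h4, -⟩ := h.holonomy hn
  have e1 := hY.symO h h.y1 h.b1
  rw [h1, h2, A2_comb, A2_comb, h.A2_symm Q.bn Q.y] at e1
  apply mul_left_cancel₀ (h4 hC)
  linear_combination Q.A2 Q.y Q.y * h3 - (1 - Q.a ^ 2) * e1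

/-- The in-plane field solves the linearised reflection law at the second vertex. -/
def XR (Q : Quad E) : Prop := ∀ u ∈ Q.P, ⟪u, Q.v1⟫ = 0 →
  Q.A2 Q.y u = (1 - Q.a) * (Q.l2 * ⟪u, Q.v4⟫ / (1 - Q.d) + Q.l1 * ⟪Q.R2 u, Q.v3⟫ / (1 - Q.b))

/-- The polynomial identity produced by the symmetry of the focusing form. -/
def seq (a b c d e f l1 l2 l3 l4 : ℝ) : ℝ :=
  l2 * (1 - a - b + a*b + c*f - c^2 + d*f - d^2 - f^2 - a*c*f + a*c^2 + a*d*f + b*c*f - b*d*f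
    + b*d^2 + c*d*e - c*e*f - d*e*f + e*f^2 - a*b*c*d)
  + l1 * (1-a) * (1-d) * (f-b*c)
  + l4 * (1 - c - d + a*f - a^2 + b*f - b^2 + c*d - f^2 + a*b*e - a*c*f + a*d*f - a*e*f + a^2*c
    + b*c*f - b*d*f - b*e*f + b^2*d + e*f^2 - a*b*c*d)
  + l3 * (1-c) * (1-b) * (f-a*d)

lemma Y.seq_zero (h : Q.Ok) (hY : Q.Y) (x2 : Q.XR) (x4 : Q.rot.rot.XR) :
    seq Q.a Q.b Q.c Q.d Q.e Q.f Q.l1 Q.l2 Q.l3 Q.l4 = 0 := by
  have hz : ⟪pr Q.v3 Q.v4, Q.v3⟫ = 0 := pr_perp h.u4.ha _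
  have st := hY.star h h.y1 hz
  have e1 := x2 _ (R2_mem (R3_mem (pr_mem m3 m4))) (h.R23_perp hz)
  have e2 := x4 (Q.R4 (Q.R1 Q.y)) (by rw [P_rot, P_rot]; exact R4_mem (R1_mem y_mem))
    (h.R41_perp h.y1)
  change Q.A4 (pr Q.v3 Q.v4) _ = (1 - Q.c) * (Q.l4 * ⟪_, Q.v2⟫ / (1 - Q.b) +
    Q.l3 * ⟪Q.R4 _, Q.v1⟫ / (1 - Q.d)) at e2
  rw [h.A4_symm, e1, e2] at st
  have na := h.na; have nb := h.nb; have nc := h.nc; have nd := h.nd
  simp only [R2, R4, h.u2.rf_rf, h.u4.rf_rf] at st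
  simp only [R1, R3, y, pr, rf, inner_sub_left, inner_sub_right, real_inner_smul_left,
    h.u2.ha, h.u2.hc, h.u4.ha, h.u4.hc, g12, g13, g14, g21, g23, g24,
    g31, g32, g34, g41, g42, g43] at st
  field_simp at st
  unfold seq
  linear_combination st

lemma Ok.F_pos (h : Q.Ok) :
    0 < 3 + Q.e + Q.f + Q.a + Q.b + Q.c + Q.d - Q.a * Q.c - Q.b * Q.d + Q.e * Q.f := by
  set U : E := (1 + Q.f) • Q.v1 + (1 - Q.d) • Q.v2 + (1 - Q.a) • Q.v4 with hU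
  have h1 : ⟪Q.v3, U⟫ = (1 + Q.f) * Q.e + (1 - Q.d) * Q.b + (1 - Q.a) * Q.c := by
    simp only [hU, inner_add_right, real_inner_smul_right, g31, g32, g34]
  have h2 : ⟪U, U⟫ = (3 + Q.a + Q.d + Q.f) ^ 2 - 2 * (1 + Q.a) * (1 + Q.d) * (3 + Q.f) := by
    simp only [hU, inner_add_right, inner_add_left, real_inner_smul_right, real_inner_smul_left,
      h.u2.ha, h.u2.hc, h.u4.hc, g12, g14, g21, g24, g41, g42]
    ring
  have h3 := real_inner_mul_inner_self_le Q.v3 U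
  rw [h.u4.ha, one_mul, h2] at h3
  have ha := h.ba.2; have hd := h.bd.2; have hf := h.bf.1
  have hp : 0 < 2 * (1 + Q.a) * (1 + Q.d) * (3 + Q.f) := by
    have : 0 < 3 + Q.f := by linarith
    positivity
  have hc : 0 < 3 + Q.a + Q.d + Q.f := by linarith
  have : -(3 + Q.a + Q.d + Q.f) < ⟪Q.v3, U⟫ := by
    by_contra hcon
    push Not at hcon
    nlinarith
  rw [h1] at this
  linarith

theorem generic_false (h : Q.Ok) (hC : Q.C ≠ 0) (y1 : Q.Y) (y2 : Q.rot.Y) (x1 : Q.XR)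
    (x2 : Q.rot.XR) (x3 : Q.rot.rot.XR) (x4 : Q.rot.rot.rot.XR) : False := by
  have s1 := y1.seq_zero h x1 x3
  have s2 := y2.seq_zero h.rot x2 x4
  simp only [rot_a, rot_b, rot_c, rot_d, rot_e, rot_f] at s2
  change seq _ _ _ _ _ _ Q.l2 Q.l3 Q.l4 Q.l1 = 0 at s2
  have hF := h.F_pos
  have hg := h.g4_zero
  have k1 := h.k1; have k2 := h.k2; have k3 := h.k3; have k4 := h.k4
  have hL : 0 < Q.l1 + Q.l2 + Q.l3 + Q.l4 := by
    have p1 := h.p1; have p2 := h.p2; have p3 := h.p3; have p4 := h.p4; linarith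
  apply mul_ne_zero hC (mul_pos hL hF).ne'
  unfold C c4
  unfold seq at s1 s2
  unfold g4 at hg
  generalize Q.a = a at *; generalize Q.b = b at *; generalize Q.c = c at *
  generalize Q.d = d at *; generalize Q.e = e at *; generalize Q.f = f at *
  linear_combination 2 * s1 + 2 * s2 - (Q.l1 + Q.l2 + Q.l3 + Q.l4) * hg
    + 2 * (1 - a - b - c - d + e + f + a * c + b * d - e * f) * (k1 + k2 + k3 + k4)

end Quad

end Pool.Agent.MP_249f74_an.H39
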