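import Pool.Agent.MP_249f74_an.H39.Alg5

/-! The half-turn case. -/

set_option autoImplicit false

namespace Pool.Agent.MP_249f74_an.H39

open scoped RealInnerProductSpace

variable {E : Type*} [NormedAddCommGroup E] [InnerProductSpace ℝ E]

namespace Quad

variable {Q : Quad E}

/-- The variation of the holonomy invariant vanishes. -/
def DC (Q : Quad E) (F : Fld E) : Prop :=
  ⟪F.d1, (Q.c - 1) • Q.v2 + (1 - Q.f) • Q.v3 + (Q.b - 1) • Q.v4⟫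
    + ⟪F.d2, (Q.c - 1) • Q.v1 + (Q.d - 1) • Q.v3 + (1 - Q.e) • Q.v4⟫
    + ⟪F.d3, (1 - Q.f) • Q.v1 + (Q.d - 1) • Q.v2 + (Q.a - 1) • Q.v4⟫
    + ⟪F.d4, (Q.b - 1) • Q.v1 + (1 - Q.e) • Q.v2 + (Q.a - 1) • Q.v3⟫ = 0

lemma Ok.half (h : Q.Ok) (hn : Q.NP) (hC : Q.C = 0) {u : E} (hu : u ∈ Q.P)
    (h1 : ⟪u, Q.v1⟫ = 0) : Q.R4 (Q.R1 u) = -Q.R3 (Q.R2 u) := by
  obtain ⟨c0, α, β, e1, e2, -, -, h5⟩ := h.holonomy hn
  obtain ⟨r1, r2, r3⟩ := h5 hC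
  rw [r1, r2, zero_smul, add_zero] at e1
  rw [r1, r3, zero_smul, zero_add] at e2
  have hO : Q.O u = -u := by
    obtain ⟨s, t, rfl⟩ := h.expand hu h1
    have : Q.O (s • Q.y + t • Q.bn) = s • Q.O Q.y + t • Q.O Q.bn := by
      simp only [O, R1, R2, R3, R4, rf_add, rf_smul]
    rw [this, e1, e2]; simp [add_comm]
  have := congrArg (fun z => Q.R3 (Q.R2 z)) hO
  simp only [O, R2, R3, h.u2.rf_rf, h.u3.rf_rf, rf_neg] at this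
  exact this

/-- The in-plane vector of the first vertex is an eigenvector of the second focusing form. -/
def EV1 (Q : Quad E) : Prop := Q.A2 (bin Q.v4 Q.v1 Q.v2) (pr Q.v1 Q.v4) = 0

lemma ev1 (h : Q.Ok) (hn : Q.NP) (hC : Q.C = 0)
    (hF : ∀ η, ⟪η, Q.v1⟫ = 0 → ∃ F, Q.IsFld F ∧ Q.DC F ∧ F.q1 = 0 ∧ F.d1 = η) : Q.EV1 := by
  set b1 := bin Q.v4 Q.v1 Q.v2 with hb1
  have b14 : ⟪b1, Q.v4⟫ = 0 := h.u1.bin_a _
  have b11 : ⟪b1, Q.v1⟫ = 0 := h.u1.bin_c _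
  have b1m : b1 ∈ Q.P := bin_mem m4 m1 m2
  obtain ⟨F, hf, hd, h0, hη⟩ := hF b1 b11
  have yf := hf.yf h h0
  obtain ⟨h4, -, h2', h4'⟩ := hf.y1 h h0
  rw [hη] at yf h4 h2' h4'
  have r1 : Q.R1 b1 = b1 := rf_of_perp b14 b11
  have hh := h.half hn hC b1m b11
  rw [r1] at h4 h4' hh
  set D2 : E := (Q.c - 1) • Q.v1 + (Q.d - 1) • Q.v3 + (1 - Q.e) • Q.v4 with hD2
  set D3 : E := (1 - Q.f) • Q.v1 + (Q.d - 1) • Q.v2 + (Q.a - 1) • Q.v4 with hD3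
  have D2m : D2 ∈ Q.P := Q.P.add_mem (Q.P.add_mem (Q.P.smul_mem _ m1) (Q.P.smul_mem _ m3))
    (Q.P.smul_mem _ m4)
  have D3m : D3 ∈ Q.P := Q.P.add_mem (Q.P.add_mem (Q.P.smul_mem _ m1) (Q.P.smul_mem _ m2))
    (Q.P.smul_mem _ m4)
  have p2 : ⟪pr Q.v2 D2, Q.v2⟫ = 0 := pr_perp h.u2.hc _
  have p3 : ⟪pr Q.v3 D3, Q.v3⟫ = 0 := pr_perp h.u4.ha _
  have r2p : ⟪Q.R2 b1, Q.v2⟫ = 0 := h.u2.rf_perp b11
  have r4p : ⟪Q.R4 b1, Q.v3⟫ = 0 := h.u4.rf_perp' b14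
  -- the two middle directions
  have e2 : Q.l2 * ⟪F.d2, D2⟫ = ⟪F.q3, pr Q.v2 D2⟫ - Q.l1 * ⟪Q.R2 b1, D2⟫ := by
    have := congrArg (fun z => ⟪pr Q.v2 D2, z⟫) hf.c2
    simp only [h2', inner_sub_right, inner_add_right, real_inner_smul_right, p2,
      inner_pr hf.o2, inner_pr r2p] at this
    rw [real_inner_comm D2, real_inner_comm (pr Q.v2 D2), real_inner_comm D2]
    linarith
  have e3 : Q.l3 * ⟪F.d3, D3⟫ = -⟪F.q3, pr Q.v3 D3⟫ - Q.l4 * ⟪Q.R4 b1, D3⟫ := by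
    have := congrArg (fun z => ⟪pr Q.v3 D3, z⟫) hf.c3
    simp only [h4', inner_sub_right, inner_add_right, real_inner_smul_right, p3,
      inner_pr hf.o3, inner_pr r4p] at this
    rw [real_inner_comm D3, real_inner_comm (pr Q.v3 D3), real_inner_comm D3]
    linarith
  have hCv : 1 - Q.a - Q.b - Q.c - Q.d + Q.e + Q.f + Q.a * Q.c + Q.b * Q.d - Q.e * Q.f = 0 := hC
  have kb := h.cl_inner b1
  rw [real_inner_comm b1, real_inner_comm b1, real_inner_comm b1, real_inner_comm b1, b11, b14]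
    at kb
  have i2 : ⟪Q.R2 b1, D2⟫ = (Q.d - 1) * ⟪b1, Q.v3⟫ := by
    have na := h.na
    simp only [R2, rf, hD2, inner_sub_left, inner_sub_right, inner_add_right,
      real_inner_smul_left, real_inner_smul_right, b11, b14, h.u2.ha, g12, g21, g13, g14, g23, g24]
    field_simp
    linear_combination (-⟪b1, Q.v2⟫) * hCv
  have i3 : ⟪Q.R4 b1, D3⟫ = (Q.d - 1) * ⟪b1, Q.v2⟫ := by
    have nc := h.nc
    simp only [R4, rf, hD3, inner_sub_left, inner_sub_right, inner_add_right,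
      real_inner_smul_left, real_inner_smul_right, b11, b14, h.u4.hc, g34, g41, g42, g31, g32]
    field_simp
    linear_combination (-⟪b1, Q.v3⟫) * hCv
  set ζ : E := Q.R2 (Q.l3 • pr Q.v2 D2 - Q.l2 • Q.R3 (pr Q.v3 D3)) with hζ
  have ζm : ζ ∈ Q.P := R2_mem (Q.P.sub_mem (Q.P.smul_mem _ (pr_mem m2 D2m))
    (Q.P.smul_mem _ (R3_mem (pr_mem m3 D3m))))
  have r3p : ⟪Q.R3 (pr Q.v3 D3), Q.v2⟫ = 0 := h.u3.rf_perp' p3
  have ζ1 : ⟪ζ, Q.v1⟫ = 0 := by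
    refine h.u2.rf_perp' ?_
    rw [inner_sub_left, real_inner_smul_left, real_inner_smul_left, p2, r3p]; ring
  have hA : Q.A2 b1 ζ = 0 := by
    rw [← yf.a2 ζ ζ1, hζ, R2, R2, h.u2.rf_rf, inner_sub_right, real_inner_smul_right,
      real_inner_smul_right, R3, ← inner_rf, rf_of_tan yf.t]
    have k1 := h.k1; have k4 := h.k4
    rw [DC, hη, h4, ← hD2, ← hD3] at hd
    simp only [inner_add_right, real_inner_smul_right, b11, b14] at hd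
    rw [i2] at e2
    rw [i3] at e3
    linear_combination (-Q.l3) * e2 - Q.l2 * e3 + Q.l2 * Q.l3 * hd
      - (Q.l3 * (Q.c - Q.e) + Q.l4 * (1 - Q.d)) * kb
      - Q.l3 * ⟪b1, Q.v3⟫ * (k1 - k4)
  have hb : ⟪ζ, b1⟫ = 0 := by
    rw [hζ, R2, inner_rf, inner_sub_left, real_inner_smul_left, real_inner_smul_left, R3,
      inner_rf]
    change Q.l3 * ⟪_, Q.R2 b1⟫ - Q.l2 * ⟪_, Q.R3 (Q.R2 b1)⟫ = 0
    have : Q.R3 (Q.R2 b1) = -Q.R4 b1 := by rw [hh, neg_neg]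
    rw [this, inner_neg_right, inner_pr r2p, inner_pr r4p, real_inner_comm, i2,
      real_inner_comm (Q.R4 b1), i3]
    linear_combination (Q.d - 1) * kb
  -- expansion in the frame of the first vertex
  have h3 := h.rot.rot.rot
  have hn1 : Q.rot.NP := h.NP_rot.2 hn
  have hn3 : Q.rot.rot.rot.NP := h.rot.rot.NP_rot.2 (h.rot.NP_rot.2 hn1)
  obtain ⟨α, β, hαβ⟩ := h3.expand (u := Q.R1 ζ) (by rw [P_rot, P_rot, P_rot]; exact R1_mem ζm)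
    (h.u1.rf_perp' ζ1)
  change Q.R1 ζ = α • pr Q.v4 Q.v1 + β • b1 at hαβ
  have hζ' : ζ = α • pr Q.v1 Q.v4 + β • b1 := by
    have := congrArg Q.R1 hαβ
    rw [R1, R1, h.u1.rf_rf, R1, rf_add, rf_smul, rf_smul, h.u1.rf_prc] at this
    rw [this]; congr 2
  have hbb : 0 < ⟪b1, b1⟫ := h3.bb_pos hn3
  have hβ : β = 0 := by
    rw [hζ', inner_add_left, real_inner_smul_left, real_inner_smul_left, inner_pr b11,
      real_inner_comm b1, b14, mul_zero, zero_add] at hb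
    exact (mul_eq_zero.1 hb).resolve_right hbb.ne'
  have hα : α ≠ 0 := by
    intro h0
    have hz : ζ = 0 := by rw [hζ', h0, hβ]; simp
    set b3 := bin Q.v2 Q.v3 Q.v4 with hb3
    have b32 : ⟪b3, Q.v2⟫ = 0 := h.u3.bin_a _
    have b33 : ⟪b3, Q.v3⟫ = 0 := h.u3.bin_c _
    have b34 : ⟪b3, Q.v4⟫ ≠ 0 := by
      have := h.rot.b3
      change ⟪b3, Q.v4⟫ = _ at this
      rw [this]; exact hn1
    have k3 := h.cl_inner b3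
    rw [real_inner_comm b3, real_inner_comm b3, real_inner_comm b3, real_inner_comm b3, b32, b33]
      at k3
    have : ⟪ζ, Q.R2 b3⟫ = 0 := by rw [hz, inner_zero_left]
    rw [hζ, R2, R2, h.u2.inner_rf_rf, inner_sub_left, real_inner_smul_left, real_inner_smul_left,
      R3, inner_rf, rf_of_perp b32 b33, inner_pr b32, inner_pr b33, real_inner_comm,
      real_inner_comm b3 D3] at this
    simp only [hD2, hD3, inner_add_right, real_inner_smul_right, b32, b33] at this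
    have p1 := h.p1; have p2 := h.p2; have p3 := h.p3; have p4 := h.p4
    have q1 := h.bc.1; have q2 := h.ba.1
    have q3 : 0 ≤ 1 - Q.e := by linarith [h.be.2]
    have q4 : 0 ≤ 1 - Q.f := by linarith [h.bf.2]
    have hpos : 0 < Q.l3 * ((1 - Q.c) * Q.l4 + (1 - Q.e) * Q.l1)
        + Q.l2 * ((1 - Q.f) * Q.l4 + (1 - Q.a) * Q.l1) := by positivity
    apply mul_ne_zero b34 hpos.ne'
    linear_combination Q.l1 * this + (Q.l3 * (1 - Q.c) + Q.l2 * (1 - Q.f)) * k3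
  rw [hζ', hβ, zero_smul, add_zero, A2, Ah_smul] at hA
  exact (mul_eq_zero.1 hA).resolve_left hα

lemma Ok.prel (h : Q.Ok) (hn : Q.NP) (hC : Q.C = 0) (hY : Q.Y) (hP : Q.rot.PP) {η z : E}
    (hη : η ∈ Q.P) (hη1 : ⟪η, Q.v1⟫ = 0) (hz : z ∈ Q.P) (hz2 : ⟪z, Q.v2⟫ = 0) :
    Q.A2 η Q.y / (1 - Q.a ^ 2) * Q.A3 (pr Q.v2 Q.v1) z
      + Q.A2 η Q.bn / ⟪Q.bn, Q.bn⟫ * Q.A3 Q.bn z
      = (Q.l1 * Q.l3 + Q.l2 * Q.l4) * ⟪Q.R2 η, z⟫ := by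
  obtain ⟨Z, hZ⟩ := hY η hη1
  have e := hZ.a3 z hz2
  rw [h.half hn hC hη hη1, inner_neg_left, R3, R3, h.u3.inner_rf_rf] at e
  have hy := h.ya
  have hb := h.bb_pos hn
  set x := pr Q.v2 Q.v1 with hx
  have x2 : ⟪x, Q.v2⟫ = 0 := pr_perp h.u2.hc _
  have rx : Q.R2 Q.y = x := h.u2.rf_prc
  have rb : Q.R2 Q.bn = Q.bn := rf_of_perp h.b1 h.b2
  have xx : ⟪x, x⟫ = 1 - Q.a ^ 2 := by rw [← rx, R2, h.u2.inner_rf_rf, h.yy]
  have xb : ⟪x, Q.bn⟫ = 0 := by rw [← rx, ← rb, R2, R2, h.u2.inner_rf_rf, h.yb]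
  have bx : ⟪Q.bn, x⟫ = 0 := by rw [real_inner_comm, xb]
  have z1 : ⟪pr Q.v2 Z, x⟫ = Q.A2 η Q.y := by rw [inner_pr x2, ← rx, hZ.a2 _ h.y1]
  have z2 : ⟪pr Q.v2 Z, Q.bn⟫ = Q.A2 η Q.bn := by
    rw [inner_pr h.b2, ← hZ.a2 _ h.b1, rb]
  set s := Q.A2 η Q.y / (1 - Q.a ^ 2) with hs
  set t := Q.A2 η Q.bn / ⟪Q.bn, Q.bn⟫ with ht
  set w := pr Q.v2 Z - s • x - t • Q.bn with hw
  have w2 : ⟪w, Q.v2⟫ = 0 := by
    simp only [hw, inner_sub_left, real_inner_smul_left, pr_perp h.u2.hc, x2, h.b2]; ring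
  have wx : ⟪w, x⟫ = 0 := by
    simp only [hw, inner_sub_left, real_inner_smul_left, z1, xx, bx, hs]; field_simp; ring
  have wb : ⟪w, Q.bn⟫ = 0 := by
    simp only [hw, inner_sub_left, real_inner_smul_left, z2, xb, ht]; field_simp; ring
  have w1 : ⟪w, Q.v1⟫ = 0 := by
    rw [hx, pr, inner_sub_right, real_inner_smul_right, w2] at wx; linarith
  have wp := (h.perp_of w1 w2 wb).rot
  have e0 : Q.A3 w z = 0 := hP w z wp (by rw [P_rot]; exact hz) hz2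
  have : pr Q.v2 Z = s • x + t • Q.bn + w := by rw [hw]; abel
  rw [this, A3, Ah_add_left, Ah_add_left, Ah_smul_left, Ah_smul_left] at e
  rw [A3] at e0
  rw [A3, A3]
  linear_combination e - e0

lemma Ok.ev2 (h : Q.Ok) (hn : Q.NP) (hC : Q.C = 0) (hY : Q.Y) (hP : Q.rot.PP)
    (hE : Q.rot.EV1) : Q.A2 Q.bn Q.y = 0 := by
  have xm : pr Q.v2 Q.v1 ∈ Q.P := pr_mem m2 m1
  have x2 : ⟪pr Q.v2 Q.v1, Q.v2⟫ = 0 := pr_perp h.u2.hc _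
  have e1 := h.prel hn hC hY hP bn_mem h.b1 xm x2
  have e2 := h.prel hn hC hY hP y_mem h.y1 xm x2
  have hE' : Q.A3 Q.bn (pr Q.v2 Q.v1) = 0 := hE
  have rx : Q.R2 Q.y = pr Q.v2 Q.v1 := h.u2.rf_prc
  rw [hE', ← rx, R2, R2, h.u2.inner_rf_rf, h.by'] at e1
  rw [hE', ← rx, R2, h.u2.inner_rf_rf, h.yy] at e2
  have hy := h.ya
  have p1 := h.p1; have p2 := h.p2; have p3 := h.p3; have p4 := h.p4
  have hne : Q.A3 (rf Q.v1 Q.v2 Q.y) (rf Q.v1 Q.v2 Q.y) ≠ 0 := by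
    intro h0
    rw [h0] at e2
    have : 0 < (Q.l1 * Q.l3 + Q.l2 * Q.l4) * (1 - Q.a ^ 2) := by positivity
    linarith
  simp only [mul_zero, add_zero, mul_eq_zero, div_eq_zero_iff] at e1
  rcases e1 with (e1 | e1) | e1
  exacts [e1, absurd e1 hy.ne', absurd e1 hne]

/-- The in-plane tangent is an eigenvector of the shape operator at the second vertex. -/
def EV (Q : Quad E) : Prop :=
  ∀ w, ⟪w, Q.v1⟫ = 0 → ⟪w, Q.v2⟫ = 0 → ⟪Q.M2 (Q.v1 + Q.v2), w⟫ = 0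

/-- Umbilicity at the second vertex. -/
def UM (Q : Quad E) : Prop := ∀ w, ⟪w, Q.v1⟫ = 0 → ⟪w, Q.v2⟫ = 0 →
  2 * (1 + Q.a) * ⟪Q.M2 w, w⟫ = ⟪w, w⟫ * ⟪Q.M2 (Q.v1 + Q.v2), Q.v1 + Q.v2⟫

lemma Ok.A2_yw (h : Q.Ok) {w : E} (h1 : ⟪w, Q.v1⟫ = 0) (h2 : ⟪w, Q.v2⟫ = 0) :
    Q.A2 Q.y w = Q.l1 * Q.l2 * ⟪Q.M2 (Q.v1 + Q.v2), w⟫ := by
  rw [A2, Ah, y, h.u2.lf_prc, lf_of_perp h2, inner_pr h1, real_inner_comm w Q.v2, h2]; ring

lemma Ok.A2_yy (h : Q.Ok) : Q.A2 Q.y Q.y = (Q.l1 + Q.l2) * (1 - Q.a ^ 2)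
    + Q.l1 * Q.l2 * ⟪Q.M2 (Q.v1 + Q.v2), Q.v1 + Q.v2⟫ := by
  rw [A2, Ah, h.yy, y, h.u2.lf_prc]

lemma A2_ww {w : E} (h2 : ⟪w, Q.v2⟫ = 0) :
    Q.A2 w w = (Q.l1 + Q.l2) * ⟪w, w⟫ + Q.l1 * Q.l2 * ⟪Q.M2 w, w⟫ := by
  rw [A2, Ah, lf_of_perp h2]

lemma Ok.ev (h : Q.Ok) (hn : Q.NP) (hP : Q.PP) (hE : Q.A2 Q.bn Q.y = 0) : Q.EV := by
  intro w h1 h2
  have hb := h.bb_pos hn
  set t := ⟪w, Q.bn⟫ / ⟪Q.bn, Q.bn⟫ with ht
  have wp : Q.Perp (w - t • Q.bn) := by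
    refine h.perp_of ?_ ?_ ?_
    · rw [inner_sub_left, real_inner_smul_left, h1, h.b1]; ring
    · rw [inner_sub_left, real_inner_smul_left, h2, h.b2]; ring
    · rw [inner_sub_left, real_inner_smul_left, ht]; field_simp; ring
  have e0 := hP _ _ wp y_mem h.y1
  have e1 : Q.A2 w Q.y = 0 := by
    have : w = (w - t • Q.bn) + t • Q.bn := by abel
    rw [this, A2, Ah_add_left, Ah_smul_left]
    rw [A2] at e0 hE
    rw [e0, hE]; ring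
  rw [h.A2_symm, h.A2_yw h1 h2] at e1
  exact (mul_eq_zero.1 e1).resolve_left (mul_pos h.p1 h.p2).ne'

lemma Ok.flat (h : Q.Ok) (hn : Q.NP) (hU : Q.UM)
    (hs : Q.A2 Q.y Q.y * ⟪Q.bn, Q.bn⟫ = Q.A2 Q.bn Q.bn * (1 - Q.a ^ 2)) :
    Q.A2 Q.y Q.y = (Q.l1 + Q.l2) * (1 - Q.a ^ 2) ∧
      Q.A2 Q.bn Q.bn = (Q.l1 + Q.l2) * ⟪Q.bn, Q.bn⟫ := by
  have u := hU Q.bn h.b1 h.b2
  rw [h.A2_yy, A2_ww h.b2] at hs ⊢
  have hb := h.bb_pos hn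
  have hl := mul_pos h.p1 h.p2
  have ha := h.ba.2
  have e1 : ⟪Q.M2 Q.bn, Q.bn⟫ = 0 := by
    have : Q.l1 * Q.l2 * (1 + Q.a) ^ 2 * ⟪Q.M2 Q.bn, Q.bn⟫ = 0 := by
      linear_combination hs + Q.l1 * Q.l2 * u
    exact (mul_eq_zero.1 this).resolve_left (by positivity)
  have e2 : ⟪Q.M2 (Q.v1 + Q.v2), Q.v1 + Q.v2⟫ = 0 := by
    rw [e1, mul_zero] at u
    exact (mul_eq_zero.1 u.symm).resolve_left hb.ne'
  rw [e1, e2]; simp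

lemma half_step (h : Q.Ok) (hn : Q.NP) (hC : Q.C = 0) (hY : Q.Y) (hP : Q.rot.PP)
    (hE : Q.EV1) (hE' : Q.rot.EV1) (hU : Q.UM) (hU' : Q.rot.UM) : Q.f = Q.a * Q.d := by
  by_contra hne
  have e0 := h.ev2 hn hC hY hP hE'
  have hy := h.ya
  have hb := h.bb_pos hn
  have hn1 : Q.rot.NP := h.NP_rot.2 hn
  have hn3 : Q.rot.rot.rot.NP := h.rot.rot.NP_rot.2 (h.rot.NP_rot.2 hn1)
  have b14 : ⟪bin Q.v4 Q.v1 Q.v2, Q.v4⟫ = 0 := h.u1.bin_a _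
  have b11 : ⟪bin Q.v4 Q.v1 Q.v2, Q.v1⟫ = 0 := h.u1.bin_c _
  have b12 : ⟪bin Q.v4 Q.v1 Q.v2, Q.v2⟫ ≠ 0 := by
    have := h.rot.rot.rot.b3
    change ⟪bin Q.v4 Q.v1 Q.v2, Q.v2⟫ = _ at this
    rw [this]; exact hn3
  obtain ⟨s, t, hx⟩ := h.expand (pr_mem m1 m4) (pr_perp h.u2.ha Q.v4)
  obtain ⟨s', t', hb1⟩ := h.expand (bin_mem m4 m1 m2) b11
  have i1 : ⟪pr Q.v1 Q.v4, Q.y⟫ = Q.f - Q.a * Q.d := by
    rw [inner_pr h.y1, real_inner_comm, y4]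
  have i2 : ⟪bin Q.v4 Q.v1 Q.v2, Q.y⟫ = ⟪bin Q.v4 Q.v1 Q.v2, Q.v2⟫ := by
    rw [real_inner_comm, y, inner_pr b11, real_inner_comm]
  have i3 : ⟪pr Q.v1 Q.v4, bin Q.v4 Q.v1 Q.v2⟫ = 0 := by
    rw [inner_pr b11, real_inner_comm, b14]
  rw [EV1] at hE
  rw [← i2] at b12
  rw [hx] at i1 i3 hE
  rw [hb1] at b12 i3 hE
  simp only [inner_add_left, inner_add_right, real_inner_smul_left, real_inner_smul_right,
    h.yy, h.yb, h.by', mul_zero, add_zero, zero_add] at i1 b12 i3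
  rw [A2_comb, h.A2_symm _ Q.y, h.A2_symm _ Q.bn, A2_comb, A2_comb, h.A2_symm Q.y Q.bn, e0] at hE
  have hs : s ≠ 0 := by
    rintro rfl
    exact hne (by linarith)
  have hs' : s' ≠ 0 := by
    rintro rfl
    exact b12 (by simp)
  have sc : Q.A2 Q.y Q.y * ⟪Q.bn, Q.bn⟫ = Q.A2 Q.bn Q.bn * (1 - Q.a ^ 2) := by
    apply mul_left_cancel₀ (mul_ne_zero hs hs')
    linear_combination ⟪Q.bn, Q.bn⟫ * hE - Q.A2 Q.bn Q.bn * i3
  obtain ⟨f1, f2⟩ := h.flat hn hU sc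
  have key : ∀ u ∈ Q.P, ⟪u, Q.v2⟫ = 0 →
      (Q.l1 + Q.l2) * Q.A3 u u = (Q.l1 * Q.l3 + Q.l2 * Q.l4) * ⟪u, u⟫ := by
    intro u hu hu2
    have hu1 : ⟪Q.R2 u, Q.v1⟫ = 0 := h.u2.rf_perp' hu2
    obtain ⟨α, β, hαβ⟩ := h.expand (R2_mem hu) hu1
    have e := h.prel hn hC hY hP (R2_mem hu) hu1 hu hu2
    have hu' : u = α • pr Q.v2 Q.v1 + β • Q.bn := by
      have := congrArg Q.R2 hαβ
      rw [R2, R2, h.u2.rf_rf, R2, rf_add, rf_smul, rf_smul, y, h.u2.rf_prc,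
        rf_of_perp h.b1 h.b2] at this
      exact this
    have r : Q.R2 (Q.R2 u) = u := h.u2.rf_rf u
    rw [r, h.A2_symm _ Q.y, h.A2_symm _ Q.bn, hαβ, A2_comb, A2_comb, h.A2_symm Q.y Q.bn, e0,
      f1, f2] at e
    have : Q.A3 u u = α * Q.A3 (pr Q.v2 Q.v1) u + β * Q.A3 Q.bn u := by
      conv_lhs => arg 2; rw [hu']
      rw [A3, Ah_add_left, Ah_smul_left, Ah_smul_left]; rfl
    rw [this, ← e]
    field_simp
    ring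
  have k1 := key Q.rot.y (by rw [← P_rot]; exact y_mem) h.rot.y1
  have k2 := key Q.rot.bn (by rw [← P_rot]; exact bn_mem) h.rot.b1
  rw [h.rot.yy] at k1
  change _ * Q.rot.A2 _ _ = _ at k1 k2
  have hl : 0 < Q.l1 + Q.l2 := add_pos h.p1 h.p2
  obtain ⟨g1, -⟩ := h.rot.flat hn1 hU' (mul_left_cancel₀ hl.ne' (by
    linear_combination ⟪Q.rot.bn, Q.rot.bn⟫ * k1 - (1 - Q.rot.a ^ 2) * k2))
  rw [g1] at k1
  change (Q.l1 + Q.l2) * ((Q.l2 + Q.l3) * _) = _ at k1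
  have k3 : (Q.l1 + Q.l2) * (Q.l2 + Q.l3) = Q.l1 * Q.l3 + Q.l2 * Q.l4 :=
    mul_right_cancel₀ h.rot.ya.ne' (by linear_combination k1)
  have k4 : Q.l4 = Q.l1 + Q.l2 + Q.l3 := mul_left_cancel₀ h.p2.ne' (by linear_combination -k3)
  have k5 := h.k4
  have q1 := mul_pos h.p1 h.bd.2
  have q2 := mul_pos h.p3 h.bc.2
  have q3 : 0 ≤ Q.l2 * (1 + Q.f) := mul_nonneg h.p2.le (by linarith [h.bf.1])
  linarith

lemma Ok.lt_of_orth (h : Q.Ok) (h1 : Q.f = Q.a * Q.d) (h2 : Q.rot.f = Q.rot.a * Q.rot.d) :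
    Q.l2 < Q.l3 := by
  rw [rot_f, rot_a, rot_d] at h2
  have k1 := h.k1; have k2 := h.k2
  have : Q.l2 + Q.l3 * Q.b = 0 := by
    apply mul_left_cancel₀ h.ya.ne'
    linear_combination k2 - Q.a * k1 - Q.l4 * h1 + Q.a * Q.l3 * h2
  have := mul_pos h.p3 h.bb.2
  linarith

theorem orth_false (h : Q.Ok) (h1 : Q.f = Q.a * Q.d) (h2 : Q.rot.f = Q.rot.a * Q.rot.d)
    (h3 : Q.rot.rot.f = Q.rot.rot.a * Q.rot.rot.d)
    (h4 : Q.rot.rot.rot.f = Q.rot.rot.rot.a * Q.rot.rot.rot.d) : False := by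
  have a1 : Q.l2 < Q.l3 := h.lt_of_orth h1 h2
  have a2 : Q.l3 < Q.l4 := h.rot.lt_of_orth h2 h3
  have a3 : Q.l4 < Q.l1 := h.rot.rot.lt_of_orth h3 h4
  have a4 : Q.l1 < Q.l2 := h.rot.rot.rot.lt_of_orth h4 h1
  linarith

end Quad

end Pool.Agent.MP_249f74_an.H39
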