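import Pool.Agent.MP_249f74_an.H39.Alg6

/-! The planar case. -/

set_option autoImplicit false

namespace Pool.Agent.MP_249f74_an.H39

open scoped RealInnerProductSpace

variable {E : Type*} [NormedAddCommGroup E] [InnerProductSpace ℝ E]

namespace Quad

variable {Q : Quad E}

lemma Ok.bn_zero (h : Q.Ok) (hn : ¬ Q.NP) : Q.bn = 0 := by
  have : g3 Q.a Q.b Q.e = 0 := not_not.1 hn
  rw [← inner_self_eq_zero (𝕜 := ℝ), h.bb', this, mul_zero]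

lemma Ok.perp_planar (h : Q.Ok) (hn : ¬ Q.NP) {w : E} (h1 : ⟪w, Q.v1⟫ = 0)
    (h2 : ⟪w, Q.v2⟫ = 0) : Q.Perp w :=
  h.perp_of h1 h2 (by rw [h.bn_zero hn, inner_zero_right])

/-- The variation keeps the first three directions coplanar. -/
def PL (Q : Quad E) (F : Fld E) : Prop := ∀ w, Q.Perp w →
  (1 - Q.a ^ 2) * ⟪F.d3, w⟫ = (Q.e - Q.a * Q.b) * ⟪F.d1, w⟫ + (Q.b - Q.a * Q.e) * ⟪F.d2, w⟫

/-- First-order information in the planar case, along the second edge. -/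
structure PE (Q : Quad E) : Prop where
  ev : Q.EV
  rel : ∀ w, Q.Perp w → Q.l2 * ⟪Q.M2 w, w⟫ * ⟪Q.M3 w, w⟫
    + ((1 - Q.a) * ⟪Q.M3 w, w⟫ + (1 - Q.b) * ⟪Q.M2 w, w⟫) * ⟪w, w⟫ = 0

lemma pe (h : Q.Ok) (hn : ¬ Q.NP)
    (hF2 : ∀ η, ⟪η, Q.v2⟫ = 0 → ∃ F, Q.IsFld F ∧ Q.PL F ∧ F.q2 = 0 ∧ F.d2 = η)
    (hF3 : ∀ η, ⟪η, Q.v3⟫ = 0 → ∃ F, Q.IsFld F ∧ Q.PL F ∧ F.q3 = 0 ∧ F.d3 = η) : Q.PE := by
  have hg : g3 Q.a Q.b Q.e = 0 := not_not.1 hn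
  have hα : Q.e - Q.a * Q.b ≠ 0 := by
    intro h0
    have : (1 - Q.a ^ 2) * (1 - Q.b ^ 2) = 0 := by
      unfold g3 at hg
      linear_combination hg + (Q.e - Q.a * Q.b) * h0
    exact mul_ne_zero h.ya.ne' h.rot.ya.ne' this
  have key : ∀ η, ⟪η, Q.v2⟫ = 0 → ∀ w, Q.Perp w →
      (Q.e - Q.a * Q.b) * Q.l2 * ⟪Q.M2 (η + (⟪η, Q.v1⟫ / (1 - Q.a)) • Q.v2), w⟫ =
        (1 - Q.a ^ 2 - (Q.e - Q.a * Q.b) - (Q.b - Q.a * Q.e)) * ⟪η, w⟫ := by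
    intro η hη w hw
    obtain ⟨F, hf, hp, h0, hd⟩ := hF3 (Q.R3 η) (h.u3.rf_perp hη)
    have h1 := h.u3.fixed (mu := F.m3) hf.o2 hf.o3 (by rw [hf.r3, h0]; simp)
    have h2 : F.d2 = η := by
      have := congrArg (rf Q.v2 Q.v3) h1.2
      rw [h.u3.rf_rf, hd, R3, h.u3.rf_rf] at this
      exact this.symm
    have h3 : F.q2 = (-F.e2) • Q.v2 + (-Q.l2) • η := by
      have := hf.c2
      rw [h0, zero_sub, h2] at this
      rw [neg_smul, neg_smul, ← neg_add, ← this, neg_neg]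
    have h4 : F.e2 = Q.l2 * (⟪η, Q.v1⟫ / (1 - Q.a)) := by
      have := hf.t2
      rw [h3] at this
      simp only [inner_add_left, real_inner_smul_left, inner_sub_right, h.u2.hc, hη, g21] at this
      have na := h.na
      field_simp
      linarith
    have h5 : F.q2 = (-Q.l2) • (η + (⟪η, Q.v1⟫ / (1 - Q.a)) • Q.v2) := by
      rw [h3, h4, smul_add, smul_smul, add_comm, neg_mul]
    have e := hp w hw
    have r := congrArg (fun z => ⟪z, w⟫) hf.r2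
    have w1 : ⟪Q.v1, w⟫ = 0 := by rw [real_inner_comm]; exact hw.1
    have w2 : ⟪Q.v2, w⟫ = 0 := by rw [real_inner_comm]; exact hw.2.1
    simp only [h5, map_smul, inner_add_left, inner_sub_left, real_inner_smul_left, w1, w2, h2] at r
    rw [hd, h2, R3, inner_rf, rf_of_perp hw.2.1 hw.2.2.1] at e
    linear_combination (Q.e - Q.a * Q.b) * r - e
  refine ⟨fun w h1 h2 => ?_, fun w hw => ?_⟩
  · have hw := h.perp_planar hn h1 h2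
    have e := key (pr Q.v2 Q.v1) (pr_perp h.u2.hc _) w hw
    have e1 : pr Q.v2 Q.v1 + (⟪pr Q.v2 Q.v1, Q.v1⟫ / (1 - Q.a)) • Q.v2 = Q.v1 + Q.v2 := by
      have : ⟪pr Q.v2 Q.v1, Q.v1⟫ / (1 - Q.a) = 1 + Q.a := by
        rw [div_eq_iff h.na, pr, inner_sub_left, real_inner_smul_left, h.u2.ha, g12, g21]; ring
      rw [this, pr, g12, add_smul, one_smul]; abel
    rw [e1, inner_pr h2, real_inner_comm w Q.v1, h1, mul_zero] at e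
    exact (mul_eq_zero.1 e).resolve_left (mul_ne_zero hα h.p2.ne')
  · have e := key w hw.2.1 w hw
    rw [hw.1, zero_div, zero_smul, add_zero] at e
    obtain ⟨F, hf, hp, h0, hd⟩ := hF2 w hw.2.1
    have h2 : F.d1 = w := by
      have := congrArg (rf Q.v1 Q.v2) (hf.y2 h h0).1
      rw [R2, h.u2.rf_rf, hd, rf_of_perp hw.1 hw.2.1] at this
      exact this.symm
    have h4 : F.e2 = 0 := by
      rw [(hf.y2 h h0).2.2.2.1, h2, R2, rf_of_perp hw.1 hw.2.1, hw.2.2.1]; simp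
    have h3 : F.q3 = Q.l2 • w := by
      have := hf.c2
      rwa [h0, sub_zero, h4, zero_smul, zero_add, hd] at this
    have e' := hp w hw
    have r := congrArg (fun z => ⟪z, w⟫) hf.r3
    have w2 : ⟪Q.v2, w⟫ = 0 := by rw [real_inner_comm]; exact hw.2.1
    have w3 : ⟪Q.v3, w⟫ = 0 := by rw [real_inner_comm]; exact hw.2.2.1
    simp only [h3, map_smul, inner_add_left, inner_sub_left, real_inner_smul_left, w2, w3, hd] at r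
    rw [h2, hd] at e'
    have e3 : (1 - Q.a ^ 2) * Q.l2 * ⟪Q.M3 w, w⟫ =
        -(1 - Q.a ^ 2 - (Q.e - Q.a * Q.b) - (Q.b - Q.a * Q.e)) * ⟪w, w⟫ := by
      linear_combination e' - (1 - Q.a ^ 2) * r
    apply mul_left_cancel₀ (mul_ne_zero (mul_ne_zero hα h.ya.ne') h.p2.ne')
    linear_combination ((1 - Q.a ^ 2) * Q.l2 * ⟪Q.M3 w, w⟫ + (1 - Q.b) * (1 - Q.a ^ 2) * ⟪w, w⟫) * e
      + ((1 - Q.a ^ 2 - (Q.e - Q.a * Q.b) - (Q.b - Q.a * Q.e)) * ⟪w, w⟫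
        + (1 - Q.a) * (Q.e - Q.a * Q.b) * ⟪w, w⟫) * e3

lemma planar_sign (h : Q.Ok) (hn : ¬ Q.NP) (hY : Q.Y) (hU : Q.UM) (hU' : Q.rot.rot.UM)
    {w : E} (hw : Q.Perp w) (hw0 : w ≠ 0) : 0 < ⟪Q.M2 w, w⟫ ∨ 0 < ⟪Q.M4 w, w⟫ := by
  have hn1 : ¬ Q.rot.NP := fun h1 => hn (h.NP_rot.1 h1)
  have hn2 : ¬ Q.rot.rot.NP := fun h1 => hn1 (h.rot.NP_rot.1 h1)
  have hn3 : ¬ Q.rot.rot.rot.NP := fun h1 => hn2 (h.rot.rot.NP_rot.1 h1)
  have hww : 0 < ⟪w, w⟫ := real_inner_self_pos.2 hw0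
  have s1 := hY.star h hw.1 hw.2.2.1
  rw [R3, rf_of_perp hw.2.1 hw.2.2.1, R2, rf_of_perp hw.1 hw.2.1, R1, rf_of_perp hw.2.2.2 hw.1,
    R4, rf_of_perp hw.2.2.1 hw.2.2.2, A2_ww hw.2.1] at s1
  have t1 : Q.A4 w w = (Q.l3 + Q.l4) * ⟪w, w⟫ + Q.l3 * Q.l4 * ⟪Q.M4 w, w⟫ :=
    A2_ww (Q := Q.rot.rot) hw.2.2.2
  rw [t1] at s1
  set y4 := pr Q.v3 Q.v4 with hy4
  have hz : ⟪y4, Q.v3⟫ = 0 := pr_perp h.u4.ha _
  have s2 := hY.star h h.y1 hz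
  obtain ⟨α, β, e1⟩ := h.expand (R2_mem (R3_mem (pr_mem m3 m4))) (h.R23_perp hz)
  obtain ⟨α', β', e2⟩ := h.rot.rot.expand (u := Q.R4 (Q.R1 Q.y))
    (by rw [P_rot, P_rot]; exact R4_mem (R1_mem y_mem)) (h.R41_perp h.y1)
  rw [h.bn_zero hn, smul_zero, add_zero, ← hy4] at e1
  rw [h.rot.rot.bn_zero hn2, smul_zero, add_zero] at e2
  change _ = α' • y4 at e2
  have y44 : ⟪y4, y4⟫ = 1 - Q.c ^ 2 := h.u4.inner_prc
  have n1 : ⟪Q.rot.bn, Q.v1⟫ = 0 := by rw [h.rot.bn_zero hn1, inner_zero_left]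
  have n3 : ⟪Q.rot.rot.rot.bn, Q.v3⟫ = 0 := by rw [h.rot.rot.rot.bn_zero hn3, inner_zero_left]
  change ⟪bin Q.v2 Q.v3 Q.v4, Q.v1⟫ = 0 at n1
  change ⟪bin Q.v4 Q.v1 Q.v2, Q.v3⟫ = 0 at n3
  simp only [bin, inner_sub_left, real_inner_smul_left, g21, g31, g41, g42, g43, g23, g24, g13]
    at n1 n3
  have r1 : α * (1 - Q.a ^ 2) = Q.e * Q.f - Q.b * Q.d := by
    have := congrArg (fun z => ⟪z, Q.y⟫) e1
    simp only [real_inner_smul_left, h.yy] at this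
    rw [← this, R2, inner_rf, y, h.u2.rf_prc]
    have nb := h.nb
    simp only [R3, hy4, pr, rf, inner_sub_left, inner_sub_right, real_inner_smul_left,
      real_inner_smul_right, h.u2.hc, h.u4.ha, g12, g21, g23, g31, g32, g41, g42, g43]
    field_simp
    linear_combination n1
  have r2 : α' * (1 - Q.c ^ 2) = Q.e * Q.f - Q.b * Q.d := by
    have := congrArg (fun z => ⟪z, y4⟫) e2
    simp only [real_inner_smul_left, y44] at this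
    rw [← this, R4, inner_rf, hy4, h.u4.rf_prc]
    have nd := h.nd
    simp only [R1, y, pr, rf, inner_sub_left, inner_sub_right, real_inner_smul_left,
      real_inner_smul_right, h.u2.ha, h.u4.hc, g21, g23, g13, g14, g24, g34, g41, g43]
    field_simp
    linear_combination n3
  have hc := h.rot.rot.ya
  change 0 < 1 - Q.c ^ 2 at hc
  have hα : α ≠ 0 := by
    rintro rfl
    have : ⟪Q.R2 (Q.R3 y4), Q.R2 (Q.R3 y4)⟫ = 1 - Q.c ^ 2 := by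
      rw [R2, h.u2.inner_rf_rf, R3, h.u3.inner_rf_rf, y44]
    rw [e1] at this
    simp at this
    linarith
  have t2 : Q.A4 y4 y4 = (Q.l3 + Q.l4) * (1 - Q.c ^ 2)
      + Q.l3 * Q.l4 * ⟪Q.M4 (Q.v3 + Q.v4), Q.v3 + Q.v4⟫ := h.rot.rot.A2_yy
  rw [e1, e2, A2, Ah_smul, A4, Ah_smul_left, ← A2, ← A4, h.A2_yy, t2] at s2
  have u2 := hU w hw.1 hw.2.1
  have u4 := hU' w hw.2.2.1 hw.2.2.2
  change 2 * (1 + Q.c) * ⟪Q.M4 w, w⟫ = ⟪w, w⟫ * ⟪Q.M4 (Q.v3 + Q.v4), Q.v3 + Q.v4⟫ at u4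
  have ha := h.ba; have hc' := h.bc
  have p1 := h.p1; have p2 := h.p2; have p3 := h.p3; have p4 := h.p4
  have e5 : Q.l1 * Q.l2 * (1 + Q.a) * (1 - Q.c) * ⟪Q.M2 w, w⟫
      + Q.l3 * Q.l4 * (1 + Q.c) * (1 - Q.a) * ⟪Q.M4 w, w⟫ = 0 := by
    have hne : α * (1 + Q.a) * (1 + Q.c) ≠ 0 := mul_ne_zero (mul_ne_zero hα ha.2.ne') hc'.2.ne'
    apply mul_left_cancel₀ hne
    linear_combination (1 - Q.c ^ 2) * ⟪w, w⟫ * s2
      + ⟪w, w⟫ * ((Q.l3 + Q.l4) * (1 - Q.c ^ 2)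
        + Q.l3 * Q.l4 * ⟪Q.M4 (Q.v3 + Q.v4), Q.v3 + Q.v4⟫) * (r1 - r2)
      + α * (1 - Q.c ^ 2) * Q.l1 * Q.l2 * u2 + α * (1 - Q.a ^ 2) * Q.l3 * Q.l4 * u4
      - α * (1 - Q.a ^ 2) * (1 - Q.c ^ 2) * s1
  by_contra hcon
  push Not at hcon
  obtain ⟨c2, c4⟩ := hcon
  have q2 : 0 < Q.l1 * Q.l2 * (1 + Q.a) * (1 - Q.c) := by
    have := ha.2; have := hc'.1; positivity
  have q4 : 0 < Q.l3 * Q.l4 * (1 + Q.c) * (1 - Q.a) := by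
    have := ha.1; have := hc'.2; positivity
  have z2 : ⟪Q.M2 w, w⟫ = 0 := by nlinarith [mul_nonneg q4.le (neg_nonneg.2 c4)]
  have z4 : ⟪Q.M4 w, w⟫ = 0 := by nlinarith [mul_nonneg q2.le (neg_nonneg.2 c2)]
  rw [z2, z4] at s1
  have : 0 < (Q.l1 + Q.l2 + Q.l3 + Q.l4) * ⟪w, w⟫ := by positivity
  linarith

lemma PE.not_pos (h : Q.Ok) (hp : Q.PE) {w : E} (hw : Q.Perp w) (h2 : 0 < ⟪Q.M2 w, w⟫)
    (h3 : 0 < ⟪Q.M3 w, w⟫) : False := by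
  have e := hp.rel w hw
  have ha := h.ba.1; have hb := h.bb.1; have p2 := h.p2
  have : 0 ≤ ⟪w, w⟫ := real_inner_self_nonneg
  have : 0 < Q.l2 * ⟪Q.M2 w, w⟫ * ⟪Q.M3 w, w⟫
    + ((1 - Q.a) * ⟪Q.M3 w, w⟫ + (1 - Q.b) * ⟪Q.M2 w, w⟫) * ⟪w, w⟫ := by positivity
  linarith

theorem planar_false (h : Q.Ok) (hn : ¬ Q.NP) (y1 : Q.Y) (y2 : Q.rot.Y)
    (u1 : Q.UM) (u2 : Q.rot.UM) (u3 : Q.rot.rot.UM) (u4 : Q.rot.rot.rot.UM)
    (e1 : Q.PE) (e2 : Q.rot.PE) (e3 : Q.rot.rot.PE) (e4 : Q.rot.rot.rot.PE)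
    {w : E} (hw : Q.Perp w) (hw0 : w ≠ 0) : False := by
  have hn1 : ¬ Q.rot.NP := fun h1 => hn (h.NP_rot.1 h1)
  rcases planar_sign h hn y1 u1 u3 hw hw0 with a | a <;>
    rcases planar_sign h.rot hn1 y2 u2 u4 hw.rot hw0 with b | b
  · exact e1.not_pos h hw a b
  · exact e4.not_pos h.rot.rot.rot hw.rot.rot.rot b a
  · exact e2.not_pos h.rot hw.rot b a
  · exact e3.not_pos h.rot.rot hw.rot.rot a b

end Quad

end Pool.Agent.MP_249f74_an.H39
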