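import Pool.Agent.MP_249f74_an.H39.Lvl2
import Pool.Agent.MP_249f74_an.H39.Alg7

/-! The space of closed 4-link billiard chains and its tangent vectors. -/

set_option autoImplicit false

namespace Pool.Agent.MP_249f74_an.H39

open scoped RealInnerProductSpace
open Module

/-- A defining function with its gradient and Hessian. -/
structure Surf (E : Type*) [NormedAddCommGroup E] [InnerProductSpace ℝ E] where
  f : E → ℝ
  N : E → E
  H : E → E →L[ℝ] E
  hf : ∀ q, HasStrictFDerivAt f (innerSL ℝ (N q)) q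
  hN : ∀ q, HasStrictFDerivAt N (H q) q
  hH : ∀ q, ∃ H' : E →L[ℝ] E →L[ℝ] E, HasStrictFDerivAt H H' q
  hs : ∀ q y z, ⟪H q y, z⟫ = ⟪H q z, y⟫

/-- Points, directions, lengths and multipliers. -/
abbrev Cfg (E : Type*) := Fin 4 → E × E × ℝ × ℝ

variable {E : Type*} [NormedAddCommGroup E] [InnerProductSpace ℝ E]

/-- Reflection points. -/
def cq (y : Cfg E) (k : Fin 4) : E := (y k).1
/-- Directions. -/
def cv (y : Cfg E) (k : Fin 4) : E := (y k).2.1
/-- Lengths. -/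
def cl (y : Cfg E) (k : Fin 4) : ℝ := (y k).2.2.1
/-- Multipliers. -/
def cm (y : Cfg E) (k : Fin 4) : ℝ := (y k).2.2.2

lemma hd_pt (x w : Cfg E) (k : Fin 4) : HD x w (fun y => y k) (w k) :=
  HD.clm (x := x) (w := w) (ContinuousLinearMap.proj (R := ℝ) (φ := fun _ => E × E × ℝ × ℝ) k)

lemma hd_q (x w : Cfg E) (k : Fin 4) : HD x w (fun y => cq y k) (cq w k) :=
  (hd_pt x w k).comp (ContinuousLinearMap.fst ℝ E (E × ℝ × ℝ)).hasStrictFDerivAt

lemma hd_r (x w : Cfg E) (k : Fin 4) : HD x w (fun y => (y k).2) (w k).2 :=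
  (hd_pt x w k).comp (ContinuousLinearMap.snd ℝ E (E × ℝ × ℝ)).hasStrictFDerivAt

lemma hd_v (x w : Cfg E) (k : Fin 4) : HD x w (fun y => cv y k) (cv w k) :=
  (hd_r x w k).comp (ContinuousLinearMap.fst ℝ E (ℝ × ℝ)).hasStrictFDerivAt

lemma hd_rr (x w : Cfg E) (k : Fin 4) : HD x w (fun y => (y k).2.2) (w k).2.2 :=
  (hd_r x w k).comp (ContinuousLinearMap.snd ℝ E (ℝ × ℝ)).hasStrictFDerivAt

lemma hd_l (x w : Cfg E) (k : Fin 4) : HD x w (fun y => cl y k) (cl w k) :=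
  (hd_rr x w k).comp (ContinuousLinearMap.fst ℝ ℝ ℝ).hasStrictFDerivAt

lemma hd_m (x w : Cfg E) (k : Fin 4) : HD x w (fun y => cm y k) (cm w k) :=
  (hd_rr x w k).comp (ContinuousLinearMap.snd ℝ ℝ ℝ).hasStrictFDerivAt

namespace Surf

variable (s : Surf E)

/-- Scaled shape operator at a vertex. -/
noncomputable def cM (y : Cfg E) (k : Fin 4) : E →L[ℝ] E := cm y k • s.H (cq y k)

/-- One link of a closed chain. -/
structure Link (y : Cfg E) (k : Fin 4) : Prop where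
  on : s.f (cq y k) = 0
  fl : cq y (k + 1) - cq y k = cl y k • cv y k
  un : ⟪cv y k, cv y k⟫ = 1
  pos : 0 < cl y k
  re : cv y (k + 1) - cv y k = cm y (k + 1) • s.N (cq y (k + 1))
  ne : 1 - ⟪cv y k, cv y (k + 1)⟫ ≠ 0

/-- Closed 4-link billiard chains. -/
def Sig : Set (Cfg E) := {y | ∀ k, s.Link y k}

variable {s} {S : Set (Cfg E)} {x w : Cfg E}

lemma uu (hx : x ∈ s.Sig) (k : Fin 4) : UU (cv x k) (cv x (k + 1)) :=
  ⟨(hx k).un, (hx (k + 1)).un, (hx k).ne⟩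

lemma cm_ne (hx : x ∈ s.Sig) (k : Fin 4) : cm x (k + 1) ≠ 0 := by
  intro h0
  have h := (hx k).re
  rw [h0, zero_smul, sub_eq_zero] at h
  have := (hx k).ne
  rw [h, (hx k).un] at this
  simp at this

lemma cm_ne' (hx : x ∈ s.Sig) (k : Fin 4) : cm x k ≠ 0 := by
  have := cm_ne hx (k - 1)
  rwa [sub_add_cancel] at this

/-- Linearised link equations. -/
structure LinK (s : Surf E) (x w : Cfg E) (k : Fin 4) : Prop where
  t : ⟪cq w (k + 1), cv x (k + 1) - cv x k⟫ = 0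
  c : cq w (k + 1) - cq w k = cl w k • cv x k + cl x k • cv w k
  o : ⟪cv w k, cv x k⟫ = 0
  r : cv w (k + 1) - cv w k = (cm w (k + 1) / cm x (k + 1)) • (cv x (k + 1) - cv x k)
    + s.cM x (k + 1) (cq w (k + 1))

lemma linK (hS : S ⊆ s.Sig) (hx : x ∈ S) (hw : w ∈ Tan S x) (k : Fin 4) : s.LinK x w k := by
  have hx' := hS hx
  refine ⟨?_, ?_, ?_, ?_⟩
  · have := ((hd_q x w (k + 1)).comp (s.hf _)).zero hw (fun y hy => (hS hy (k + 1)).on)
    rw [innerSL_apply_apply] at this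
    rw [(hx' k).re, real_inner_smul_right, real_inner_comm, this, mul_zero]
  · have := (((hd_q x w (k + 1)).sub (hd_q x w k)).sub ((hd_l x w k).smul (hd_v x w k))).zero_vec
      hw (fun y hy => sub_eq_zero.2 (hS hy k).fl)
    exact sub_eq_zero.1 this
  · have := (((hd_v x w k).inner (hd_v x w k)).sub (HD.const 1)).zero hw
      (fun y hy => sub_eq_zero.2 (hS hy k).un)
    rw [real_inner_comm (cv w k)] at this
    linarith
  · have := (((hd_v x w (k + 1)).sub (hd_v x w k)).sub ((hd_m x w (k + 1)).smul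
      ((hd_q x w (k + 1)).comp (s.hN _)))).zero_vec hw (fun y hy => sub_eq_zero.2 (hS hy k).re)
    rw [sub_eq_zero.1 this, (hx' k).re, smul_smul, div_mul_cancel₀ _ (cm_ne hx' k)]
    rfl

lemma LinK.step (hx : x ∈ s.Sig) {k : Fin 4} (h : s.LinK x w k) (h' : s.LinK x w (k + 1))
    (h1 : cq w k = 0) (h2 : cv w k = 0) :
    cq w (k + 1) = 0 ∧ cv w (k + 1) = 0 ∧ cl w k = 0 ∧ cm w (k + 1) = 0 := by
  have u := uu hx k
  have c := h.c
  rw [h1, h2, smul_zero, add_zero, sub_zero] at c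
  have t := h.t
  rw [c, real_inner_smul_left, inner_sub_right, u.ha] at t
  have hl : cl w k = 0 := by
    refine (mul_eq_zero.1 t).resolve_right fun h0 => u.ne ?_
    linarith
  have hq : cq w (k + 1) = 0 := by rw [c, hl, zero_smul]
  have r := h.r
  rw [hq, map_zero, add_zero] at r
  have := u.fixed h.o h'.o r
  rw [h2, inner_zero_left, neg_zero, zero_div] at this
  refine ⟨hq, ?_, hl, ?_⟩
  · rw [this.2]; simp [rf]
  · exact (div_eq_zero_iff.1 this.1).resolve_right (cm_ne hx k)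

lemma i11 (k : Fin 4) : k + 1 + 1 = k + 2 := by revert k; decide
lemma i21 (k : Fin 4) : k + 2 + 1 = k + 3 := by revert k; decide
lemma i31 (k : Fin 4) : k + 3 + 1 = k := by revert k; decide
lemma i12 (k : Fin 4) : k + 1 + 2 = k + 3 := by revert k; decide
lemma i13 (k : Fin 4) : k + 1 + 3 = k := by revert k; decide
lemma icover (k i : Fin 4) : i = k ∨ i = k + 1 ∨ i = k + 2 ∨ i = k + 3 := by revert k i; decide

lemma tan_inj (hS : S ⊆ s.Sig) (hx : x ∈ S) (hw : w ∈ Tan S x) (k : Fin 4)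
    (h1 : cq w k = 0) (h2 : cv w k = 0) : w = 0 := by
  have L := linK hS hx hw
  have hx' := hS hx
  obtain ⟨a1, b1, c1, d1⟩ := (L k).step hx' (L _) h1 h2
  obtain ⟨a2, b2, c2, d2⟩ := (L (k + 1)).step hx' (L _) a1 b1
  obtain ⟨a3, b3, c3, d3⟩ := (L (k + 1 + 1)).step hx' (L _) a2 b2
  obtain ⟨a4, b4, c4, d4⟩ := (L (k + 1 + 1 + 1)).step hx' (L _) a3 b3
  simp only [i11, i21, i31] at *
  funext i
  rcases icover k i with rfl | rfl | rfl | rfl
  · exact Prod.ext h1 (Prod.ext h2 (Prod.ext c1 d4))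
  · exact Prod.ext a1 (Prod.ext b1 (Prod.ext c2 d1))
  · exact Prod.ext a2 (Prod.ext b2 (Prod.ext c3 d2))
  · exact Prod.ext a3 (Prod.ext b3 (Prod.ext c4 d3))

lemma full [FiniteDimensional ℝ E] (hS : S ⊆ s.Sig) (hx : x ∈ Der (2 * finrank ℝ E - 3) S)
    (k : Fin 4) {η : E} (hη : ⟪η, cv x k⟫ = 0) : ∃ w ∈ Tan S x, cq w k = 0 ∧ cv w k = η := by
  have hx' := hS hx.1
  set n := cv x (k + 3 + 1) - cv x (k + 3) with hn
  have hn0 : ⟪n, n⟫ ≠ 0 := by
    have u := uu hx' (k + 3)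
    rw [hn, inner_sub_left, inner_sub_right, inner_sub_right, u.ha, u.hc,
      real_inner_comm (cv x (k + 3))]
    intro h0; apply u.ne; linarith
  have ht : ∀ w ∈ Tan S x, ⟪cq w k, n⟫ = 0 := fun w hw => by
    have := (linK hS hx.1 hw (k + 3)).t
    rwa [← hn, i31] at this
  have ho : ∀ w ∈ Tan S x, ⟪cv w k, cv x k⟫ = 0 := fun w hw => (linK hS hx.1 hw k).o
  let Ψ : (Tan S x × ℝ × ℝ) →ₗ[ℝ] E × E :=
    { toFun := fun p => (cq p.1.1 k + p.2.1 • n, cv p.1.1 k + p.2.2 • cv x k)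
      map_add' := by
        intro p q
        simp only [cq, cv, Prod.fst_add, Prod.snd_add, Submodule.coe_add, Pi.add_apply, add_smul,
          Prod.mk_add_mk, Prod.mk.injEq]
        constructor <;> abel
      map_smul' := by
        intro c p
        simp only [cq, cv, Prod.smul_fst, Prod.smul_snd, Submodule.coe_smul, Pi.smul_apply,
          smul_eq_mul, RingHom.id_apply, Prod.smul_mk, smul_add, smul_smul] }
  have key : ∀ (p : Tan S x × ℝ × ℝ) (ζ : E), ⟪ζ, cv x k⟫ = 0 → Ψ p = (0, ζ) →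
      cq p.1.1 k = 0 ∧ cv p.1.1 k = ζ ∧ p.2.1 = 0 ∧ p.2.2 = 0 := by
    intro p ζ hζ hp
    have e1 : cq p.1.1 k + p.2.1 • n = 0 := congrArg Prod.fst hp
    have e2 : cv p.1.1 k + p.2.2 • cv x k = ζ := congrArg Prod.snd hp
    have f1 : p.2.1 = 0 := by
      have := congrArg (fun z => ⟪z, n⟫) e1
      simp only [inner_add_left, real_inner_smul_left, ht _ p.1.2, inner_zero_left, zero_add] at this
      exact (mul_eq_zero.1 this).resolve_right hn0
    have f2 : p.2.2 = 0 := by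
      have := congrArg (fun z => ⟪z, cv x k⟫) e2
      simpa only [inner_add_left, real_inner_smul_left, ho _ p.1.2, hζ, zero_add, (hx' k).un,
        mul_one] using this
    rw [f1, zero_smul, add_zero] at e1
    rw [f2, zero_smul, add_zero] at e2
    exact ⟨e1, e2, f1, f2⟩
  have hinj : Function.Injective Ψ := by
    rw [injective_iff_map_eq_zero]
    intro p hp
    obtain ⟨a, b, c, d⟩ := key p 0 (inner_zero_left _) hp
    exact Prod.ext (Subtype.ext (tan_inj hS hx.1 p.1.2 k a b)) (Prod.ext c d)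
  have hr : LinearMap.range Ψ = ⊤ := by
    apply Submodule.eq_top_of_finrank_eq
    refine le_antisymm (Submodule.finrank_le _) ?_
    rw [LinearMap.finrank_range_of_inj hinj]
    have := hx.2
    simp only [finrank_prod, finrank_self]
    omega
  obtain ⟨p, hp⟩ : (0, η) ∈ LinearMap.range Ψ := by rw [hr]; trivial
  obtain ⟨a, b, -, -⟩ := key p η hη hp
  exact ⟨p.1.1, p.1.2, a, b⟩

/-- The chain read from vertex `k`. -/
noncomputable def Qd (s : Surf E) (y : Cfg E) (k : Fin 4) : Quad E :=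
  ⟨cv y k, cv y (k + 1), cv y (k + 2), cv y (k + 3), cl y k, cl y (k + 1), cl y (k + 2),
    cl y (k + 3), s.cM y k, s.cM y (k + 1), s.cM y (k + 2), s.cM y (k + 3)⟩

/-- The variation read from vertex `k`. -/
noncomputable def Fd (x w : Cfg E) (k : Fin 4) : Fld E :=
  ⟨cq w k, cq w (k + 1), cq w (k + 2), cq w (k + 3), cv w k, cv w (k + 1), cv w (k + 2),
    cv w (k + 3), cl w k, cl w (k + 1), cl w (k + 2), cl w (k + 3), cm w k / cm x k,
    cm w (k + 1) / cm x (k + 1), cm w (k + 2) / cm x (k + 2), cm w (k + 3) / cm x (k + 3)⟩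

lemma Qd_rot (y : Cfg E) (k : Fin 4) : (s.Qd y k).rot = s.Qd y (k + 1) := by
  simp only [Qd, Quad.rot, i11, i12, i13]

lemma isFld (hS : S ⊆ s.Sig) (hx : x ∈ S) (hw : w ∈ Tan S x) (k : Fin 4) :
    (s.Qd x k).IsFld (Fd x w k) := by
  have L := linK hS hx hw
  obtain ⟨t1, c1, o1, r1⟩ := L k
  obtain ⟨t2, c2, o2, r2⟩ := L (k + 1)
  obtain ⟨t3, c3, o3, r3⟩ := L (k + 2)
  obtain ⟨t4, c4, o4, r4⟩ := L (k + 3)
  simp only [i11, i21, i31] at t2 c2 r2 t3 c3 r3 t4 c4 r4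
  exact ⟨t4, t1, t2, t3, c1, c2, c3, c4, o1, o2, o3, o4, r4, r1, r2, r3⟩

/-- Chains without perpendicular incidence. -/
def Sig' (s : Surf E) : Set (Cfg E) := {y ∈ s.Sig | ∀ k, 1 + ⟪cv y k, cv y (k + 1)⟫ ≠ 0}

lemma cM_symm (y : Cfg E) (k : Fin 4) (a b : E) : ⟪s.cM y k a, b⟫ = ⟪s.cM y k b, a⟫ := by
  simp only [cM, smul_apply, real_inner_smul_left, s.hs _ a b]

lemma ok (hx : x ∈ s.Sig') (k : Fin 4) : (s.Qd x k).Ok := by
  have u := uu hx.1
  have u2 := u (k + 1); have u3 := u (k + 2); have u4 := u (k + 3)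
  have n2 := hx.2 (k + 1); have n3 := hx.2 (k + 2); have n4 := hx.2 (k + 3)
  have f1 := (hx.1 k).fl; have f2 := (hx.1 (k + 1)).fl; have f3 := (hx.1 (k + 2)).fl
  have f4 := (hx.1 (k + 3)).fl
  simp only [i11, i21, i31] at u2 u3 u4 n2 n3 n4 f2 f3 f4
  refine ⟨u4, u k, u2, u3, (hx.1 _).pos, (hx.1 _).pos, (hx.1 _).pos, (hx.1 _).pos, ?_,
    cM_symm _ _, cM_symm _ _, cM_symm _ _, cM_symm _ _, n4, hx.2 k, n2, n3⟩
  simp only [Qd]
  rw [← f1, ← f2, ← f3, ← f4]; abel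

lemma hd_M (hx : x ∈ s.Sig) (k : Fin 4) (h0 : cq w k = 0) :
    HD x w (fun y => s.cM y k) ((cm w k / cm x k) • s.cM x k) := by
  obtain ⟨H', hH⟩ := s.hH (cq x k)
  refine ((hd_m x w k).smul ((hd_q x w k).comp hH)).congr ?_
  rw [h0, map_zero, smul_zero, add_zero, cM, smul_smul, div_mul_cancel₀ _ (cm_ne' hx k)]

end Surf

end Pool.Agent.MP_249f74_an.H39
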