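import Mathlib

/-! Strict tangent spaces of arbitrary sets and Hausdorff dimension. -/

set_option autoImplicit false

namespace Pool.Agent.MP_249f74_an.H39

open Filter Topology Set Module
open scoped ENNReal NNReal

variable {V : Type*} [NormedAddCommGroup V] [NormedSpace ℝ V]

/-- Vectors killed by the strict derivative at `x` of every real function vanishing on `S`. -/
def Tan (S : Set V) (x : V) : Submodule ℝ V where
  carrier := {w | ∀ (g : V → ℝ) (L : V →L[ℝ] ℝ), HasStrictFDerivAt g L x →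
    (∀ y ∈ S, g y = 0) → L w = 0}
  add_mem' := by
    intro a b ha hb g L hg h0
    rw [map_add, ha g L hg h0, hb g L hg h0, add_zero]
  zero_mem' := by
    intro g L _ _
    exact map_zero L
  smul_mem' := by
    intro c a ha g L hg h0
    rw [map_smul, ha g L hg h0, smul_zero]

lemma Tan_mono {S T : Set V} (h : S ⊆ T) (x : V) : Tan S x ≤ Tan T x := by
  intro w hw g L hg h0
  exact hw g L hg (fun y hy => h0 y (h hy))

lemma exists_antilip [FiniteDimensional ℝ V] (S : Set V) (x : V) (π : V →L[ℝ] V)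
    (hπ : ∀ w ∈ Tan S x, π w = w) :
    ∃ (C : ℝ≥0) (U : Set V), U ∈ 𝓝 x ∧ ∀ y ∈ S ∩ U, ∀ z ∈ S ∩ U, ‖y - z‖ ≤ C * ‖π y - π z‖ := by
  by_contra hcon
  push Not at hcon
  have h1 : ∀ n : ℕ, ∃ y ∈ S ∩ Metric.ball x (1 / ((n : ℝ) + 1)),
      ∃ z ∈ S ∩ Metric.ball x (1 / ((n : ℝ) + 1)), (n : ℝ) * ‖π y - π z‖ < ‖y - z‖ := by
    intro n
    obtain ⟨y, hy, z, hz, hlt⟩ := hcon n (Metric.ball x (1 / ((n : ℝ) + 1)))
      (Metric.ball_mem_nhds x (by positivity))
    exact ⟨y, hy, z, hz, by simpa using hlt⟩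
  choose y hy z hz hlt using h1
  have hne : ∀ n, 0 < ‖y n - z n‖ := fun n =>
    lt_of_le_of_lt (by positivity) (hlt n)
  set u : ℕ → V := fun n => ‖y n - z n‖⁻¹ • (y n - z n) with hu
  have hu1 : ∀ n, u n ∈ Metric.sphere (0 : V) 1 := by
    intro n
    simp only [hu, mem_sphere_iff_norm, sub_zero, norm_smul, norm_inv, norm_norm]
    exact inv_mul_cancel₀ (hne n).ne'
  obtain ⟨a, ha, φ, hφ, hlim⟩ := (isCompact_sphere (0 : V) 1).tendsto_subseq hu1
  have hto : ∀ p : ℕ → V, (∀ n : ℕ, p n ∈ S ∩ Metric.ball x (1 / ((n : ℝ) + 1))) →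
      Tendsto p atTop (𝓝 x) := by
    intro p hp
    rw [tendsto_iff_dist_tendsto_zero]
    refine squeeze_zero (fun n => dist_nonneg) (fun n => (hp n).2.le) ?_
    exact tendsto_one_div_add_atTop_nhds_zero_nat
  have hyx := hto y hy
  have hzx := hto z hz
  -- `π a = 0`
  have hπa : π a = 0 := by
    have h2 : Tendsto (fun n => π (u (φ n))) atTop (𝓝 (π a)) :=
      (π.continuous.tendsto a).comp hlim
    have h3 : Tendsto (fun n => π (u n)) atTop (𝓝 0) := by
      rw [tendsto_zero_iff_norm_tendsto_zero]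
      refine squeeze_zero' (Eventually.of_forall fun n => norm_nonneg _) ?_
        (tendsto_inv_atTop_nhds_zero_nat (𝕜 := ℝ))
      filter_upwards [eventually_gt_atTop 0] with n hn
      have hn' : (0 : ℝ) < n := by exact_mod_cast hn
      simp only [hu, map_smul, map_sub, norm_smul, norm_inv, norm_norm]
      rw [inv_mul_le_iff₀ (hne n), ← div_eq_mul_inv, le_div_iff₀ hn', mul_comm]
      exact (hlt n).le
    exact tendsto_nhds_unique h2 (h3.comp hφ.tendsto_atTop)
  have haT : a ∈ Tan S x := by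
    intro g L hg h0
    have h2 : Tendsto (fun n => L (u (φ n))) atTop (𝓝 (L a)) :=
      (L.continuous.tendsto a).comp hlim
    have h3 : Tendsto (fun n => L (u n)) atTop (𝓝 0) := by
      have h4 := hg.isLittleO.comp_tendsto (hyx.prodMk_nhds hzx)
      rw [Asymptotics.isLittleO_iff] at h4
      rw [Metric.tendsto_nhds]
      intro ε hε
      filter_upwards [h4 (half_pos hε)] with n hn
      simp only [Function.comp, h0 _ (hy n).1, h0 _ (hz n).1, sub_self, zero_sub, norm_neg] at hn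
      simp only [hu, map_smul, dist_zero_right, norm_smul, norm_inv, norm_norm]
      rw [inv_mul_lt_iff₀ (hne n)]
      have := hne n
      nlinarith
    exact tendsto_nhds_unique h2 (h3.comp hφ.tendsto_atTop)
  have : a = 0 := by rw [← hπ a haT, hπa]
  simp [this] at ha

lemma local_dimH [FiniteDimensional ℝ V] (S : Set V) (x : V) :
    ∃ U ∈ 𝓝 x, dimH (S ∩ U) ≤ finrank ℝ (Tan S x) := by
  obtain ⟨Q, hQ⟩ := Submodule.exists_isCompl (Tan S x)
  let p : V →ₗ[ℝ] Tan S x := Submodule.projectionOnto (Tan S x) Q hQ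
  let π : V →L[ℝ] V := LinearMap.toContinuousLinearMap ((Tan S x).subtype ∘ₗ p)
  have hπ : ∀ w ∈ Tan S x, π w = w := by
    intro w hw
    have := Submodule.projectionOnto_apply_left hQ ⟨w, hw⟩
    simp only [π, LinearMap.coe_toContinuousLinearMap', LinearMap.comp_apply,
      Submodule.subtype_apply, p]
    exact congrArg Subtype.val this
  obtain ⟨C, U, hU, hC⟩ := exists_antilip S x π hπ
  refine ⟨U, hU, ?_⟩
  let F : ↥(S ∩ U) → Tan S x := fun y => p y.1
  have hF : AntilipschitzWith C F := by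
    refine AntilipschitzWith.of_le_mul_dist fun y z => ?_
    have := hC y.1 y.2 z.1 z.2
    rw [Subtype.dist_eq, dist_eq_norm, Subtype.dist_eq, dist_eq_norm]
    exact this
  have h1 := hF.le_dimH_image univ
  have h2 : dimH (univ : Set ↥(S ∩ U)) = dimH (S ∩ U) := by
    rw [← (isometry_subtype_coe (s := S ∩ U)).dimH_image univ]
    simp
  rw [← h2]
  refine h1.trans ((dimH_mono (subset_univ _)).trans ?_)
  rw [Real.dimH_univ_eq_finrank]

lemma dimH_le_of_Tan [FiniteDimensional ℝ V] (S A : Set V) (hA : A ⊆ S) (r : ℕ)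
    (h : ∀ x ∈ A, finrank ℝ (Tan S x) ≤ r) : dimH A ≤ r := by
  choose U hU hd using local_dimH S
  obtain ⟨t, hts, htc, hcov⟩ := TopologicalSpace.countable_cover_nhdsWithin
    (s := A) (f := U) (fun x _ => mem_nhdsWithin_of_mem_nhds (hU x))
  have : A ⊆ ⋃ x ∈ t, S ∩ U x := by
    intro y hy
    obtain ⟨x, hx, hyx⟩ := mem_iUnion₂.1 (hcov hy)
    exact mem_iUnion₂.2 ⟨x, hx, hA hy, hyx⟩
  refine (dimH_mono this).trans ?_
  rw [dimH_bUnion htc]
  refine iSup₂_le fun x hx => (hd x).trans ?_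
  exact_mod_cast h x (hts hx)

/-- The derived set: points whose strict tangent space has dimension above `r`. -/
def Der (r : ℕ) (S : Set V) : Set V := {x ∈ S | r < finrank ℝ (Tan S x)}

lemma Der_subset (r : ℕ) (S : Set V) : Der r S ⊆ S := fun _ h => h.1

lemma dimH_le_of_Der [FiniteDimensional ℝ V] (r : ℕ) (S : Set V) (h : dimH (Der r S) ≤ r) :
    dimH S ≤ r := by
  have h1 : dimH (S \ Der r S) ≤ r := by
    refine dimH_le_of_Tan S _ sdiff_subset r fun x hx => ?_
    by_contra hc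
    exact hx.2 ⟨hx.1, not_le.1 hc⟩
  have h2 : S = Der r S ∪ (S \ Der r S) := (union_sdiff_cancel (Der_subset r S)).symm
  rw [h2, dimH_union]
  exact max_le h h1

lemma dimH_le_of_Der_empty [FiniteDimensional ℝ V] (r : ℕ) (S : Set V) (h : Der r S = ∅) :
    dimH S ≤ r := dimH_le_of_Der r S (by simp [h])

lemma dimH_le_of_Der2_empty [FiniteDimensional ℝ V] (r : ℕ) (S : Set V)
    (h : Der r (Der r S) = ∅) : dimH S ≤ r :=
  dimH_le_of_Der r S (dimH_le_of_Der_empty r _ h)

end Pool.Agent.MP_249f74_an.H39
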