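import Pool.Agent.MP_249f74_an.H39.Dim

/-! Directional strict derivatives: a small calculus. -/

set_option autoImplicit false

namespace Pool.Agent.MP_249f74_an.H39

open Filter Topology Set Module

variable {V : Type*} [NormedAddCommGroup V] [NormedSpace ℝ V]
variable {F G : Type*} [NormedAddCommGroup F] [NormedSpace ℝ F]
  [NormedAddCommGroup G] [NormedSpace ℝ G]
variable {E : Type*} [NormedAddCommGroup E] [InnerProductSpace ℝ E]

/-- `g` is strictly differentiable at `x`, with derivative `g'` in direction `w`. -/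
def HD (x w : V) (g : V → F) (g' : F) : Prop :=
  ∃ L : V →L[ℝ] F, HasStrictFDerivAt g L x ∧ L w = g'

variable {x w : V}

lemma HD.congr {g : V → F} {a b : F} (h : HD x w g a) (e : a = b) : HD x w g b := e ▸ h

lemma HD.const (c : F) : HD x w (fun _ => c) 0 := ⟨0, hasStrictFDerivAt_const c x, rfl⟩

lemma HD.clm (L : V →L[ℝ] F) : HD x w (fun y => L y) (L w) := ⟨L, L.hasStrictFDerivAt, rfl⟩

lemma HD.add {g h : V → F} {a b : F} (hg : HD x w g a) (hh : HD x w h b) :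
    HD x w (fun y => g y + h y) (a + b) := by
  obtain ⟨L, hL, rfl⟩ := hg
  obtain ⟨M, hM, rfl⟩ := hh
  exact ⟨L + M, hL.add hM, rfl⟩

lemma HD.sub {g h : V → F} {a b : F} (hg : HD x w g a) (hh : HD x w h b) :
    HD x w (fun y => g y - h y) (a - b) := by
  obtain ⟨L, hL, rfl⟩ := hg
  obtain ⟨M, hM, rfl⟩ := hh
  exact ⟨L - M, hL.sub hM, rfl⟩

lemma HD.smul {c : V → ℝ} {g : V → F} {c' : ℝ} {a : F} (hc : HD x w c c') (hg : HD x w g a) :
    HD x w (fun y => c y • g y) (c' • g x + c x • a) := by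
  obtain ⟨L, hL, rfl⟩ := hc
  obtain ⟨M, hM, rfl⟩ := hg
  refine ⟨_, hL.smul hM, ?_⟩
  simp [add_comm]

lemma HD.mul {c g : V → ℝ} {c' a : ℝ} (hc : HD x w c c') (hg : HD x w g a) :
    HD x w (fun y => c y * g y) (c' * g x + c x * a) := hc.smul hg

lemma HD.inv {c : V → ℝ} {c' : ℝ} (hc : HD x w c c') (h0 : c x ≠ 0) :
    HD x w (fun y => (c y)⁻¹) (-c' / (c x) ^ 2) := by
  obtain ⟨L, hL, rfl⟩ := hc
  refine ⟨_, (hasStrictDerivAt_inv h0).comp_hasStrictFDerivAt x hL, ?_⟩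
  simp only [smul_apply, smul_eq_mul]
  field_simp

lemma HD.div {c g : V → ℝ} {c' a : ℝ} (hg : HD x w g a) (hc : HD x w c c') (h0 : c x ≠ 0) :
    HD x w (fun y => g y / c y) (a / c x - g x * c' / (c x) ^ 2) := by
  have := hg.mul (hc.inv h0)
  simp only [← div_eq_mul_inv] at this
  refine this.congr ?_
  ring

lemma HD.inner {g h : V → E} {a b : E} (hg : HD x w g a) (hh : HD x w h b) :
    HD x w (fun y => inner ℝ (g y) (h y)) (inner ℝ a (h x) + inner ℝ (g x) b) := by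
  obtain ⟨L, hL, rfl⟩ := hg
  obtain ⟨M, hM, rfl⟩ := hh
  refine ⟨_, hL.inner ℝ hM, ?_⟩
  simp [fderivInnerCLM_apply, add_comm]

lemma HD.apply {c : V → F →L[ℝ] G} {c' : F →L[ℝ] G} {g : V → F} {a : F}
    (hc : HD x w c c') (hg : HD x w g a) :
    HD x w (fun y => c y (g y)) (c' (g x) + c x a) := by
  obtain ⟨L, hL, rfl⟩ := hc
  obtain ⟨M, hM, rfl⟩ := hg
  refine ⟨_, hL.clm_apply hM, ?_⟩
  simp [add_comm]

lemma HD.comp {φ : F → G} {φ' : F →L[ℝ] G} {g : V → F} {a : F}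
    (hg : HD x w g a) (hφ : HasStrictFDerivAt φ φ' (g x)) :
    HD x w (fun y => φ (g y)) (φ' a) := by
  obtain ⟨M, hM, rfl⟩ := hg
  exact ⟨_, hφ.comp x hM, rfl⟩

lemma HD.zero {S : Set V} (hw : w ∈ Tan S x) {g : V → ℝ} {a : ℝ} (hg : HD x w g a)
    (h0 : ∀ y ∈ S, g y = 0) : a = 0 := by
  obtain ⟨L, hL, rfl⟩ := hg
  exact hw g L hL h0

lemma HD.zero_vec {S : Set V} (hw : w ∈ Tan S x) {g : V → E} {a : E} (hg : HD x w g a)
    (h0 : ∀ y ∈ S, g y = 0) : a = 0 := by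
  have h := (hg.inner (HD.const (x := x) (w := w) a)).zero hw (fun y hy => by simp [h0 y hy])
  simpa using h

end Pool.Agent.MP_249f74_an.H39
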