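import Pool.Agent.MP_249f74_an.H39.HD
import Pool.Agent.MP_249f74_an.H39.Alg1

/-! Differentiating vertex identities along fields that fix the vertex. -/

set_option autoImplicit false

namespace Pool.Agent.MP_249f74_an.H39

open scoped RealInnerProductSpace

variable {V : Type*} [NormedAddCommGroup V] [NormedSpace ℝ V]
variable {E : Type*} [NormedAddCommGroup E] [InnerProductSpace ℝ E]
variable {S : Set V} {x w : V}

lemma HD.bin {a c u : V → E} {a' c' u' : E} (ha : HD x w a a') (hc : HD x w c c')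
    (hu : HD x w u u') :
    HD x w (fun y => bin (a y) (c y) (u y))
      ((-(2 * ⟪a x, c x⟫ * (⟪a', c x⟫ + ⟪a x, c'⟫))) • u x + (1 - ⟪a x, c x⟫ ^ 2) • u'
        - (((⟪u', a x⟫ + ⟪u x, a'⟫) - ((⟪a', c x⟫ + ⟪a x, c'⟫) * ⟪u x, c x⟫
            + ⟪a x, c x⟫ * (⟪u', c x⟫ + ⟪u x, c'⟫))) • a x
          + (⟪u x, a x⟫ - ⟪a x, c x⟫ * ⟪u x, c x⟫) • a')
        - (((⟪u', c x⟫ + ⟪u x, c'⟫) - ((⟪a', c x⟫ + ⟪a x, c'⟫) * ⟪u x, a x⟫
            + ⟪a x, c x⟫ * (⟪u', a x⟫ + ⟪u x, a'⟫))) • c x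
          + (⟪u x, c x⟫ - ⟪a x, c x⟫ * ⟪u x, a x⟫) • c')) := by
  have hg := ha.inner hc
  have h1 : HD x w (fun y => 1 - ⟪a y, c y⟫ ^ 2)
      (-(2 * ⟪a x, c x⟫ * (⟪a', c x⟫ + ⟪a x, c'⟫))) := by
    have := (HD.const (x := x) (w := w) (1 : ℝ)).sub (hg.mul hg)
    simp only [← sq] at this
    exact this.congr (by ring)
  exact ((h1.smul hu).sub (((hu.inner ha).sub (hg.mul (hu.inner hc))).smul ha)).sub
    (((hu.inner hc).sub (hg.mul (hu.inner ha))).smul hc)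

lemma um_abs (hw : w ∈ Tan S x) {a c : V → E} {M : V → E →L[ℝ] E} {b : E}
    (ha : HD x w a b) (hc : HD x w c b) (hM : HD x w M 0) (hu : UU (a x) (c x))
    (h1 : ⟪b, a x⟫ = 0) (h2 : ⟪b, c x⟫ = 0)
    (hS : ∀ y ∈ S, ⟪M y (a y + c y), bin (a y) (c y) b⟫ = 0) :
    2 * (1 + ⟪a x, c x⟫) * ⟪M x b, b⟫ = ⟪b, b⟫ * ⟪M x (a x + c x), a x + c x⟫ := by
  have := ((hM.apply (ha.add hc)).inner (ha.bin hc (HD.const b))).zero hw hS
  have h1' : ⟪a x, b⟫ = 0 := by rw [real_inner_comm, h1]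
  simp only [bin, h1, h2, h1', zero_apply, map_add, inner_add_left,
    inner_sub_right, inner_add_right, real_inner_smul_right, inner_zero_left, smul_zero,
    inner_zero_right] at this ⊢
  apply mul_left_cancel₀ hu.ne
  linear_combination this

lemma xr_abs (hw : w ∈ Tan S x) {a c u : V → E} {l l' : V → ℝ} {M : V → E →L[ℝ] E}
    {η u' : E} {dl dl' α β : ℝ}
    (ha : HD x w a η) (hc : HD x w c (rf (a x) (c x) η)) (hu : HD x w u u')
    (hl : HD x w l dl) (hl' : HD x w l' dl')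
    (hM : HD x w M ((-⟪η, c x⟫ / (1 - ⟪a x, c x⟫)) • M x))
    (hU : UU (a x) (c x)) (hn : 1 + ⟪a x, c x⟫ ≠ 0) (l0 : l x ≠ 0) (l0' : l' x ≠ 0)
    (hb : ⟪bin (a x) (c x) (u x), bin (a x) (c x) (u x)⟫ ≠ 0)
    (hs : ∀ y z, ⟪M x y, z⟫ = ⟪M x z, y⟫)
    (hP : ∀ z, ⟪z, a x⟫ = 0 → ⟪z, c x⟫ = 0 → ⟪z, bin (a x) (c x) (u x)⟫ = 0 →
      ⟪M x (bin (a x) (c x) (u x)), z⟫ = 0)
    (hη : η = α • pr (a x) (c x) + β • bin (a x) (c x) (u x)) (hx : x ∈ S)
    (hS : ∀ y ∈ S, UU (a y) (c y) ∧ 2 * ((l y)⁻¹ + (l' y)⁻¹)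
      + ⟪M y (a y + c y), a y + c y⟫ / (1 - ⟪a y, c y⟫ * ⟪a y, c y⟫)
      + ⟪M y (bin (a y) (c y) (u y)), bin (a y) (c y) (u y)⟫
        / ⟪bin (a y) (c y) (u y), bin (a y) (c y) (u y)⟫ = 0) :
    Ah (a x) (c x) (l x) (l' x) (M x) (pr (a x) (c x)) η =
      (1 - ⟪a x, c x⟫) * (l' x * dl / l x + l x * dl' / l' x) := by
  obtain ⟨b', hb'⟩ : ∃ b', HD x w (fun y => bin (a y) (c y) (u y)) b' := ⟨_, ha.bin hc hu⟩
  have e1 := (hb'.inner ha).zero hw (fun y hy => (hS y hy).1.bin_a _)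
  have e2 := (hb'.inner hc).zero hw (fun y hy => (hS y hy).1.bin_c _)
  have hg := ha.inner hc
  have hne : 1 - ⟪a x, c x⟫ * ⟪a x, c x⟫ ≠ 0 := by
    have := mul_ne_zero hU.ne hn
    intro h0; apply this; linear_combination h0
  have e3 := (((HD.const (2 : ℝ)).mul ((hl.inv l0).add (hl'.inv l0'))).add
    (((hM.apply (ha.add hc)).inner (ha.add hc)).div ((HD.const (1 : ℝ)).sub (hg.mul hg)) hne)).add
    (((hM.apply hb').inner hb').div (hb'.inner hb') hb) |>.zero hw (fun y hy => (hS y hy).2)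
  have e0 := (hS x hx).2
  set b := bin (a x) (c x) (u x) with hbdef
  have ba : ⟪b, a x⟫ = 0 := hU.bin_a _
  have bc : ⟪b, c x⟫ = 0 := hU.bin_c _
  set g := ⟪a x, c x⟫ with hgdef
  set s := a x + c x with hsdef
  have ng : 1 - g ≠ 0 := hU.ne
  have pa : ⟪pr (a x) (c x), a x⟫ = 0 := pr_perp hU.ha _
  have pc : ⟪pr (a x) (c x), c x⟫ = 1 - g ^ 2 := by
    rw [← hU.inner_prc, real_inner_comm, ← inner_pr pa]
  have pb : ⟪b, pr (a x) (c x)⟫ = 0 := by
    rw [real_inner_comm, inner_pr ba, real_inner_comm, bc]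
  have ηa : ⟪η, a x⟫ = 0 := by
    rw [hη, inner_add_left, real_inner_smul_left, real_inner_smul_left, pa, ba]; ring
  have ηc : ⟪η, c x⟫ = α * (1 - g ^ 2) := by
    rw [hη, inner_add_left, real_inner_smul_left, real_inner_smul_left, pc, bc]; ring
  have bη : ⟪b, η⟫ = β * ⟪b, b⟫ := by
    rw [hη, inner_add_right, real_inner_smul_right, real_inner_smul_right, pb]; ring
  have brη : ⟪b, rf (a x) (c x) η⟫ = β * ⟪b, b⟫ := by
    rw [← inner_rf, rf_of_perp ba bc, bη]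
  have arη : ⟪a x, rf (a x) (c x) η⟫ = α * (1 - g ^ 2) := by
    rw [← inner_rf, hU.rf_a, real_inner_comm, ηc]
  have hds : η + rf (a x) (c x) η = (α * (1 - g)) • s + (2 * β) • b := by
    rw [hη, rf_add, rf_smul, rf_smul, hU.rf_prc, rf_of_perp ba bc, pr, pr, ← hgdef,
      real_inner_comm (a x) (c x), ← hgdef, hsdef]
    module
  have sa : ⟪s, a x⟫ = 1 + g := by
    rw [hsdef, inner_add_left, hU.ha, real_inner_comm (a x) (c x)]
  have sc : ⟪s, c x⟫ = 1 + g := by rw [hsdef, inner_add_left, hU.hc, add_comm]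
  have sb : ⟪s, b⟫ = 0 := by
    rw [hsdef, inner_add_left, real_inner_comm b, real_inner_comm b, ba, bc, add_zero]
  rw [bη] at e1
  rw [brη] at e2
  have e4 := hP (b' - (⟪b', b⟫ / ⟪b, b⟫) • b + (β * ⟪b, b⟫ / (1 + g)) • s)
    (by simp only [inner_add_left, inner_sub_left, real_inner_smul_left, ba, sa]
        rw [div_mul_cancel₀ _ hn]; linarith)
    (by simp only [inner_add_left, inner_sub_left, real_inner_smul_left, bc, sc]
        rw [div_mul_cancel₀ _ hn]; linarith)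
    (by simp only [inner_add_left, inner_sub_left, real_inner_smul_left, sb]
        field_simp; ring)
  have hA : Ah (a x) (c x) (l x) (l' x) (M x) (pr (a x) (c x)) η =
      α * ((l x + l' x) * (1 - g ^ 2) + l x * l' x * ⟪M x s, s⟫) + β * (l x * l' x * ⟪M x s, b⟫) := by
    rw [hη, Ah_add, Ah_smul, Ah_smul, Ah, Ah, hU.lf_prc, lf_of_perp bc, hU.inner_prc,
      real_inner_comm b, pb]
    ring
  rw [hds, arη, ηc] at e3
  simp only [inner_add_left, inner_add_right, inner_sub_right, real_inner_smul_left,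
    real_inner_smul_right, map_add, map_smul, smul_apply, hs b s, hs b' b,
    real_inner_comm b' b] at e3 e4
  rw [hA]
  generalize ⟪M x s, s⟫ = mss at *
  generalize ⟪M x s, b⟫ = msb at *
  generalize ⟪M x b, b⟫ = mbb at *
  generalize ⟪M x b, b'⟫ = mbb' at *
  generalize ⟪b', b⟫ = bb' at *
  generalize ⟪b, b⟫ = bb at *
  have f4 : mbb' = bb' / bb * mbb - β * bb / (1 + g) * msb := by linarith
  have f0 : mbb = -(2 * ((l x)⁻¹ + (l' x)⁻¹) + mss / (1 - g * g)) * bb := by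
    rw [← div_eq_iff hb]; linarith
  have hne' : 1 - g * g = (1 - g) * (1 + g) := by ring
  rw [f4, f0, hne'] at e3
  have key : l x * l' x * (1 - g) / 2 ≠ 0 := by
    refine div_ne_zero (mul_ne_zero (mul_ne_zero l0 l0') ng) two_ne_zero
  have := congrArg (fun t => l x * l' x * (1 - g) / 2 * t) e3
  simp only [mul_zero] at this
  rw [← sub_eq_zero, ← this]
  field_simp
  ring

end Pool.Agent.MP_249f74_an.H39
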