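import Pool.Agent.MP_249f74_an.H39.Cfg

/-! The dimension bound for closed 4-link chains. -/

set_option autoImplicit false

namespace Pool.Agent.MP_249f74_an.H39

open scoped RealInnerProductSpace
open Module

variable {E : Type*} [NormedAddCommGroup E] [InnerProductSpace ℝ E] [FiniteDimensional ℝ E]

lemma exists_perp (hd : 3 ≤ finrank ℝ E) (a c : E) : ∃ w : E, w ≠ 0 ∧ ⟪w, a⟫ = 0 ∧ ⟪w, c⟫ = 0 := by
  let F : E →ₗ[ℝ] ℝ × ℝ := ((innerSL ℝ a).prod (innerSL ℝ c)).toLinearMap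
  have hF : LinearMap.ker F ≠ ⊥ := F.ker_ne_bot_of_finrank_lt (by simp; omega)
  obtain ⟨w, hw, h0⟩ := Submodule.exists_mem_ne_zero_of_ne_bot hF
  have : F w = 0 := hw
  refine ⟨w, h0, ?_, ?_⟩
  · rw [real_inner_comm]; exact congrArg Prod.fst this
  · rw [real_inner_comm]; exact congrArg Prod.snd this

namespace Surf

variable {s : Surf E} {S : Set (Cfg E)} {x : Cfg E}

lemma perp_case (hd : 3 ≤ finrank ℝ E) (k : Fin 4) :
    Der (2 * finrank ℝ E - 3) {y ∈ s.Sig | 1 + ⟪cv y k, cv y (k + 1)⟫ = 0} = ∅ := by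
  rw [Set.eq_empty_iff_forall_notMem]
  intro x hx
  have hS : {y ∈ s.Sig | 1 + ⟪cv y k, cv y (k + 1)⟫ = 0} ⊆ s.Sig := fun _ h => h.1
  obtain ⟨η, h0, h1, h2⟩ := exists_perp hd (cv x k) (cv x (k + 1))
  obtain ⟨w, hw, hq, hv⟩ := full hS hx (k + 1) h2
  have L := linK hS hx.1 hw
  have u := uu hx.1.1 k
  have r := (L k).r
  rw [hq, map_zero, add_zero] at r
  have e1 := (u.fixed (L k).o (L _).o r).2
  have e2 := ((hd_v x w k).add (hd_v x w (k + 1))).zero_vec hw (fun y hy => by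
    rw [← inner_self_eq_zero (𝕜 := ℝ), inner_add_left, inner_add_right, inner_add_right,
      (hy.1 k).un, (hy.1 (k + 1)).un, real_inner_comm (cv y k)]
    linarith [hy.2])
  rw [hv] at e1 e2
  have e3 : cv w k = -η := eq_neg_of_add_eq_zero_left e2
  rw [e3, rf_neg, rf_of_perp h1 h2] at e1
  apply h0
  have : (2 : ℝ) • η = 0 := by rw [two_smul]; nth_rewrite 1 [e1]; simp
  simpa using this

lemma lvlY (hS : S ⊆ s.Sig') (hx : x ∈ Der (2 * finrank ℝ E - 3) S) (k : Fin 4) :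
    (s.Qd x k).Y := by
  intro η hη
  have hS' : S ⊆ s.Sig := fun _ h => (hS h).1
  obtain ⟨w, hw, hq, hv⟩ := full hS' hx k hη
  have := (isFld hS' hx.1 hw k).yf (ok (hS hx.1) k) hq
  rw [← hv]
  exact ⟨_, this⟩

lemma lvlUM (hS : S ⊆ s.Sig') (hx : x ∈ Der (2 * finrank ℝ E - 3) S) (k : Fin 4)
    (hE : ∀ y ∈ S, (s.Qd y k).EV) : (s.Qd x k).UM := by
  intro b h1 h2
  have hS' : S ⊆ s.Sig := fun _ h => (hS h).1
  obtain ⟨w, hw, hq, hv⟩ := full hS' hx (k + 1) h2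
  have hQ := ok (hS hx.1) k
  obtain ⟨y1, y2, -⟩ := (isFld hS' hx.1 hw k).y2 hQ hq
  have e1 : cv w k = b := by
    have := congrArg (s.Qd x k).R2 y1
    simp only [Quad.R2, hQ.u2.rf_rf] at this
    change rf _ _ (cv w (k + 1)) = cv w k at this
    rw [← this, hv, rf_of_perp h1 h2]
  change cm w (k + 1) / cm x (k + 1) = -⟪cv w k, _⟫ / _ at y2
  rw [e1, h2, neg_zero, zero_div] at y2
  have hM := hd_M (w := w) (hS' hx.1) (k + 1) hq
  rw [y2, zero_smul] at hM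
  exact um_abs hw (e1 ▸ hd_v x w k) (hv ▸ hd_v x w (k + 1)) hM hQ.u2 h1 h2
    (fun y hy => hE y hy _ ((ok (hS hy) k).u2.bin_a _) ((ok (hS hy) k).u2.bin_c _))

lemma lvlXR (hS : S ⊆ s.Sig') (hx : x ∈ Der (2 * finrank ℝ E - 3) S) (k : Fin 4)
    (hN : ∀ y ∈ S, (s.Qd y k).NP) (hT : ∀ y ∈ S, (s.Qd y k).TR) (hP : (s.Qd x k).PP) :
    (s.Qd x k).XR := by
  intro u hu h1
  have hS' : S ⊆ s.Sig := fun _ h => (hS h).1
  have hQ := ok (hS hx.1) k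
  obtain ⟨w, hw, hq, hv⟩ := full hS' hx (k + 1) (η := (s.Qd x k).R2 u) (hQ.u2.rf_perp h1)
  obtain ⟨y1, y2, y3, y4, -⟩ := (isFld hS' hx.1 hw k).y2 hQ hq
  have e1 : cv w k = u := by
    have := congrArg (s.Qd x k).R2 y1
    simp only [Quad.R2, hQ.u2.rf_rf] at this
    change rf _ _ (cv w (k + 1)) = cv w k at this
    rw [← this, hv, Quad.R2, hQ.u2.rf_rf]
  change cm w (k + 1) / cm x (k + 1) = -⟪cv w k, _⟫ / _ at y2
  change cl w k = _ * ⟪cv w k, _⟫ / _ at y3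
  change cl w (k + 1) = _ * ⟪(s.Qd x k).R2 (cv w k), _⟫ / _ at y4
  rw [e1] at y2 y3 y4
  have hM := hd_M (w := w) (hS' hx.1) (k + 1) hq
  rw [y2] at hM
  obtain ⟨α, β, hαβ⟩ := hQ.expand hu h1
  have hb := hQ.bb_pos (hN x hx.1)
  have := xr_abs hw (a := fun y => cv y k) (c := fun y => cv y (k + 1))
    (u := fun y => cv y (k + 2)) (l := fun y => cl y k) (l' := fun y => cl y (k + 1))
    (M := fun y => s.cM y (k + 1)) (α := α) (β := β)
    (e1 ▸ hd_v x w k) ((hd_v x w (k + 1)).congr hv) (hd_v x w (k + 2)) (hd_l x w k)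
    (hd_l x w (k + 1)) hM hQ.u2 hQ.n2 hQ.p1.ne' hQ.p2.ne' hb.ne' hQ.s2
    (fun z z1 z2 z3 => by
      have := hP z _ (hQ.perp_of z1 z2 z3) Quad.bn_mem hQ.b1
      change ⟪z, (s.Qd x k).v2⟫ = 0 at z2
      change ⟪z, (s.Qd x k).bn⟫ = 0 at z3
      rw [Quad.A2, Ah, lf_of_perp z2, lf_of_perp hQ.b2, z3, mul_zero, zero_add, hQ.s2] at this
      exact (mul_eq_zero.1 this).resolve_left (mul_pos hQ.p1 hQ.p2).ne')
    hαβ hx.1
    (fun y hy => by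
      have hQ := ok (hS hy) k
      refine ⟨hQ.u2, ?_⟩
      have t := hT y hy
      rw [Quad.TR, hQ.A2_yy, Quad.A2_ww hQ.b2] at t
      have hb := (hQ.bb_pos (hN y hy)).ne'
      have ha := hQ.ya.ne'
      have p1 := hQ.p1.ne'
      have p2 := hQ.p2.ne'
      change 2 * (((s.Qd y k).l1)⁻¹ + ((s.Qd y k).l2)⁻¹) +
        ⟪(s.Qd y k).M2 ((s.Qd y k).v1 + (s.Qd y k).v2), (s.Qd y k).v1 + (s.Qd y k).v2⟫ /
          (1 - (s.Qd y k).a * (s.Qd y k).a) +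
        ⟪(s.Qd y k).M2 (s.Qd y k).bn, (s.Qd y k).bn⟫ / ⟪(s.Qd y k).bn, (s.Qd y k).bn⟫ = 0
      rw [← sq]
      field_simp
      linear_combination t)
  change (s.Qd x k).A2 (s.Qd x k).y u = (1 - (s.Qd x k).a) *
    ((s.Qd x k).l2 * cl w k / (s.Qd x k).l1 + (s.Qd x k).l1 * cl w (k + 1) / (s.Qd x k).l2) at this
  rw [this, y3, y4]
  have p1 := hQ.p1.ne'
  have p2 := hQ.p2.ne'
  rw [Quad.g41, Quad.g23]
  field_simp

omit [FiniteDimensional ℝ E] in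
lemma lvlPL {w : Cfg E} (hS : S ⊆ s.Sig') (hw : w ∈ Tan S x) (k : Fin 4)
    (hN : ∀ y ∈ S, ¬ (s.Qd y k).NP) : (s.Qd x k).PL (Fd x w k) := by
  intro z hz
  have := (((hd_v x w k).bin (hd_v x w (k + 1)) (hd_v x w (k + 2))).inner (HD.const z)).zero hw
    (fun y hy => by
      have := (ok (hS hy) k).bn_zero (hN y hy)
      change bin (cv y k) (cv y (k + 1)) (cv y (k + 2)) = 0 at this
      rw [this, inner_zero_left])
  have z1 : ⟪cv x k, z⟫ = 0 := by rw [real_inner_comm]; exact hz.1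
  have z2 : ⟪cv x (k + 1), z⟫ = 0 := by rw [real_inner_comm]; exact hz.2.1
  have z3 : ⟪cv x (k + 2), z⟫ = 0 := by rw [real_inner_comm]; exact hz.2.2.1
  simp only [inner_add_left, inner_sub_left, real_inner_smul_left, z1, z2, z3, inner_zero_right,
    real_inner_comm (cv x k) (cv x (k + 2)), real_inner_comm (cv x (k + 1)) (cv x (k + 2))] at this
  simp only [Quad.a, Quad.b, Quad.e, Qd, Fd]
  linarith

omit [FiniteDimensional ℝ E] in
lemma lvlDC {w : Cfg E} (hw : w ∈ Tan S x) (k : Fin 4)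
    (hC : ∀ y ∈ S, (s.Qd y k).C = 0) : (s.Qd x k).DC (Fd x w k) := by
  have v1 := hd_v x w k
  have v2 := hd_v x w (k + 1)
  have v3 := hd_v x w (k + 2)
  have v4 := hd_v x w (k + 3)
  have a := v1.inner v2
  have b := v2.inner v3
  have c := v3.inner v4
  have d := v4.inner v1
  have e := v1.inner v3
  have f := v2.inner v4
  have := ((((((((((HD.const (1 : ℝ)).sub a).sub b).sub c).sub d).add e).add f).add (a.mul c)).add
    (b.mul d)).sub (e.mul f)).zero hw hC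
  simp only [Quad.DC, Quad.a, Quad.b, Quad.c, Quad.d, Quad.e, Quad.f, Qd, Fd, inner_add_right,
    real_inner_smul_right]
  simp only [real_inner_comm (cv w _)] at this
  linear_combination this

lemma planar_case (hd : 3 ≤ finrank ℝ E) :
    Der (2 * finrank ℝ E - 3) (Der (2 * finrank ℝ E - 3)
      {y ∈ s.Sig' | ∀ k, ¬ (s.Qd y k).NP}) = ∅ := by
  rw [Set.eq_empty_iff_forall_notMem]
  intro x hx
  set S0 := {y ∈ s.Sig' | ∀ k, ¬ (s.Qd y k).NP} with hS0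
  have h0 : S0 ⊆ s.Sig' := fun _ h => h.1
  have h0' : S0 ⊆ s.Sig := fun _ h => h.1.1
  have h1 : Der (2 * finrank ℝ E - 3) S0 ⊆ s.Sig' := fun _ h => h.1.1
  have pe : ∀ y ∈ Der (2 * finrank ℝ E - 3) S0, ∀ k, (s.Qd y k).PE := by
    intro y hy k
    refine Quad.pe (ok hy.1.1 k) (hy.1.2 k) (fun η hη => ?_) (fun η hη => ?_)
    · obtain ⟨w, hw, hq, hv⟩ := full h0' hy (k + 1) hη
      exact ⟨_, isFld h0' hy.1 hw k, lvlPL h0 hw k (fun z hz => hz.2 k), hq, hv⟩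
    · obtain ⟨w, hw, hq, hv⟩ := full h0' hy (k + 2) hη
      exact ⟨_, isFld h0' hy.1 hw k, lvlPL h0 hw k (fun z hz => hz.2 k), hq, hv⟩
  have um : ∀ k, (s.Qd x k).UM := fun k => lvlUM h1 hx k (fun y hy => (pe y hy k).ev)
  have hY := lvlY h0 hx.1
  have hQ := ok hx.1.1.1 0
  obtain ⟨w, w0, w1, w2⟩ := exists_perp hd (s.Qd x 0).v1 (s.Qd x 0).v2
  refine Quad.planar_false hQ (hx.1.1.2 0) (hY 0) ?_ (um 0) ?_ ?_ ?_ (pe x hx.1 0) ?_ ?_ ?_
    (hQ.perp_planar (hx.1.1.2 0) w1 w2) w0 <;> simp only [Qd_rot]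
  exacts [hY _, um _, um _, um _, pe x hx.1 _, pe x hx.1 _, pe x hx.1 _]

lemma generic_case :
    Der (2 * finrank ℝ E - 3) (Der (2 * finrank ℝ E - 3)
      {y ∈ s.Sig' | ∀ k, (s.Qd y k).NP ∧ (s.Qd y k).C ≠ 0}) = ∅ := by
  rw [Set.eq_empty_iff_forall_notMem]
  intro x hx
  set S0 := {y ∈ s.Sig' | ∀ k, (s.Qd y k).NP ∧ (s.Qd y k).C ≠ 0} with hS0
  have h0 : S0 ⊆ s.Sig' := fun _ h => h.1
  have h1 : Der (2 * finrank ℝ E - 3) S0 ⊆ s.Sig' := fun _ h => h.1.1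
  have hY := lvlY h0 hx.1
  have xr : ∀ k, (s.Qd x k).XR := fun k => lvlXR h1 hx k (fun y hy => (hy.1.2 k).1)
    (fun y hy => (lvlY h0 hy k).tr (ok hy.1.1 k) (hy.1.2 k).1 (hy.1.2 k).2)
    ((hY k).pp (ok hx.1.1.1 k) (hx.1.1.2 k).1)
  refine Quad.generic_false (ok hx.1.1.1 0) (hx.1.1.2 0).2 (hY 0) ?_ (xr 0) ?_ ?_ ?_ <;>
    simp only [Qd_rot]
  exacts [hY _, xr _, xr _, xr _]

lemma half_case :
    Der (2 * finrank ℝ E - 3) (Der (2 * finrank ℝ E - 3)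
      {y ∈ s.Sig' | ∀ k, (s.Qd y k).NP ∧ (s.Qd y k).C = 0}) = ∅ := by
  rw [Set.eq_empty_iff_forall_notMem]
  intro x hx
  set S0 := {y ∈ s.Sig' | ∀ k, (s.Qd y k).NP ∧ (s.Qd y k).C = 0} with hS0
  have h0 : S0 ⊆ s.Sig' := fun _ h => h.1
  have h0' : S0 ⊆ s.Sig := fun _ h => h.1.1
  have h1 : Der (2 * finrank ℝ E - 3) S0 ⊆ s.Sig' := fun _ h => h.1.1
  have pp : ∀ y ∈ Der (2 * finrank ℝ E - 3) S0, ∀ k, (s.Qd y k).PP := fun y hy k =>
    (lvlY h0 hy k).pp (ok hy.1.1 k) (hy.1.2 k).1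
  have e1 : ∀ y ∈ Der (2 * finrank ℝ E - 3) S0, ∀ k, (s.Qd y k).EV1 := by
    intro y hy k
    refine Quad.ev1 (ok hy.1.1 k) (hy.1.2 k).1 (hy.1.2 k).2 (fun η hη => ?_)
    obtain ⟨w, hw, hq, hv⟩ := full h0' hy k hη
    exact ⟨_, isFld h0' hy.1 hw k, lvlDC hw k (fun z hz => (hz.2 k).2), hq, hv⟩
  have ev : ∀ y ∈ Der (2 * finrank ℝ E - 3) S0, ∀ k, (s.Qd y k).EV := by
    intro y hy k
    have hQ := ok hy.1.1 k
    refine hQ.ev (hy.1.2 k).1 (pp y hy k) (hQ.ev2 (hy.1.2 k).1 (hy.1.2 k).2 (lvlY h0 hy k) ?_ ?_)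
    · rw [Qd_rot]; exact pp y hy _
    · rw [Qd_rot]; exact e1 y hy _
  have um : ∀ k, (s.Qd x k).UM := fun k => lvlUM h1 hx k (fun y hy => ev y hy k)
  have st : ∀ k, (s.Qd x k).f = (s.Qd x k).a * (s.Qd x k).d := by
    intro k
    refine Quad.half_step (ok hx.1.1.1 k) (hx.1.1.2 k).1 (hx.1.1.2 k).2 (lvlY h0 hx.1 k) ?_
      (e1 x hx.1 k) ?_ (um k) ?_ <;> rw [Qd_rot]
    exacts [pp x hx.1 _, e1 x hx.1 _, um _]
  refine Quad.orth_false (ok hx.1.1.1 0) (st 0) ?_ ?_ ?_ <;> simp only [Qd_rot]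
  exacts [st _, st _, st _]

theorem dimH_Sig (hd : 3 ≤ finrank ℝ E) (s : Surf E) :
    dimH s.Sig ≤ (2 * finrank ℝ E - 3 : ℕ) := by
  have hcov : s.Sig ⊆ (⋃ k, {y ∈ s.Sig | 1 + ⟪cv y k, cv y (k + 1)⟫ = 0}) ∪
      ({y ∈ s.Sig' | ∀ k, ¬ (s.Qd y k).NP} ∪
        ({y ∈ s.Sig' | ∀ k, (s.Qd y k).NP ∧ (s.Qd y k).C ≠ 0} ∪
          {y ∈ s.Sig' | ∀ k, (s.Qd y k).NP ∧ (s.Qd y k).C = 0})) := by
    intro y hy
    by_cases h1 : ∃ k, 1 + ⟪cv y k, cv y (k + 1)⟫ = 0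
    · obtain ⟨k, hk⟩ := h1
      exact Or.inl (Set.mem_iUnion.2 ⟨k, hy, hk⟩)
    have hy' : y ∈ s.Sig' := ⟨hy, fun k hk => h1 ⟨k, hk⟩⟩
    have n : ∀ k, (s.Qd y (k + 1)).NP ↔ (s.Qd y k).NP := fun k => by
      rw [← Qd_rot]; exact (ok hy' k).NP_rot
    have c : ∀ k, (s.Qd y (k + 1)).C = (s.Qd y k).C := fun k => by
      rw [← Qd_rot]; exact Quad.C_rot
    have n' : ∀ k, (s.Qd y k).NP ↔ (s.Qd y 0).NP := by
      intro k
      rcases icover 0 k with rfl | rfl | rfl | rfl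
      · rfl
      · exact n 0
      · rw [← i11, n, n]
      · rw [← i21, ← i11, n, n, n]
    have c' : ∀ k, (s.Qd y k).C = (s.Qd y 0).C := by
      intro k
      rcases icover 0 k with rfl | rfl | rfl | rfl
      · rfl
      · exact c 0
      · rw [← i11, c, c]
      · rw [← i21, ← i11, c, c, c]
    right
    by_cases h2 : (s.Qd y 0).NP
    · right
      by_cases h3 : (s.Qd y 0).C = 0
      · exact Or.inr ⟨hy', fun k => ⟨(n' k).2 h2, (c' k).trans h3⟩⟩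
      · exact Or.inl ⟨hy', fun k => ⟨(n' k).2 h2, by rw [c' k]; exact h3⟩⟩
    · exact Or.inl ⟨hy', fun k hk => h2 ((n' k).1 hk)⟩
  refine (dimH_mono hcov).trans ?_
  rw [dimH_union, dimH_union, dimH_union, dimH_iUnion]
  exact max_le (iSup_le fun k => dimH_le_of_Der_empty _ _ (perp_case hd k))
    (max_le (dimH_le_of_Der2_empty _ _ (planar_case hd))
      (max_le (dimH_le_of_Der2_empty _ _ generic_case) (dimH_le_of_Der2_empty _ _ half_case)))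

end Surf

end Pool.Agent.MP_249f74_an.H39
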