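import Pool.Agent.MP_249f74_an.H39.Main

/-! From a defining function to the chain space. -/

set_option autoImplicit false

namespace Pool.Agent.MP_249f74_an.H39

open scoped RealInnerProductSpace
open Module

variable {E : Type*} [NormedAddCommGroup E] [InnerProductSpace ℝ E] [FiniteDimensional ℝ E]

/-- The Riesz map as a real continuous linear map. -/
noncomputable def riesz : (E →L[ℝ] ℝ) →L[ℝ] E :=
  LinearMap.toContinuousLinearMap
    { toFun := fun φ => (InnerProductSpace.toDual ℝ E).symm φ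
      map_add' := fun a b => map_add _ a b
      map_smul' := fun c a => by simp }

lemma inner_riesz (φ : E →L[ℝ] ℝ) (z : E) : ⟪riesz φ, z⟫ = φ z :=
  InnerProductSpace.toDual_symm_apply

lemma exists_surf (f : E → ℝ) (hf : ContDiff ℝ 3 f) :
    ∃ s : Surf E, s.f = f ∧ s.N = gradient f := by
  have h1 : ContDiff ℝ 2 (fderiv ℝ f) := hf.fderiv_right (by norm_num)
  have hg : gradient f = fun q => riesz (fderiv ℝ f q) := rfl
  have h2 : ContDiff ℝ 2 (gradient f) := by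
    rw [hg]; exact (riesz (E := E)).contDiff.comp h1
  have h3 : ContDiff ℝ 1 (fderiv ℝ (gradient f)) := h2.fderiv_right (by norm_num)
  refine ⟨⟨f, gradient f, fderiv ℝ (gradient f), fun q => ?_, fun q => ?_, fun q => ?_,
    fun q y z => ?_⟩, rfl, rfl⟩
  · have := (hf.contDiffAt (x := q)).hasStrictFDerivAt (by norm_num)
    have e : innerSL ℝ (gradient f q) = fderiv ℝ f q := by
      ext z
      rw [innerSL_apply_apply, inner_gradient_left]
    rw [e]; exact this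
  · exact (h2.contDiffAt (x := q)).hasStrictFDerivAt (by norm_num)
  · exact ⟨_, (h3.contDiffAt (x := q)).hasStrictFDerivAt (by norm_num)⟩
  · have h4 : HasFDerivAt (gradient f) ((riesz (E := E)).comp (fderiv ℝ (fderiv ℝ f) q)) q := by
      rw [hg]
      exact (riesz (E := E)).hasFDerivAt.comp q
        ((h1.differentiable (by norm_num)) q).hasFDerivAt
    rw [h4.fderiv]
    simp only [ContinuousLinearMap.comp_apply, inner_riesz]
    exact (hf.contDiffAt (x := q)).isSymmSndFDerivAt (by simp; norm_num) y z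

theorem dimH_per4 (hd : 3 ≤ finrank ℝ E) (f : E → ℝ) (hf : ContDiff ℝ 3 f) :
    dimH {q : E × E | ∃ p u : ℕ → E, p 0 = q.1 ∧ u 0 = q.2 ∧ p 4 = q.1 ∧ u 4 = q.2 ∧
      ∀ k < 4, f (p k) = 0 ∧ ‖u k‖ = 1 ∧ inner ℝ (u k) (gradient f (p k)) < 0 ∧
        (∃ t : ℝ, 0 < t ∧ p (k + 1) = p k + t • u k) ∧
        u (k + 1) = u k - (2 * inner ℝ (u k) (gradient f (p (k + 1))) /
          ‖gradient f (p (k + 1))‖ ^ 2) • gradient f (p (k + 1))}
      ≤ (2 * finrank ℝ E - 3 : ℕ) := by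
  obtain ⟨s, hs, hN⟩ := exists_surf f hf
  let π : Cfg E →L[ℝ] E × E :=
    ((ContinuousLinearMap.fst ℝ E (E × ℝ × ℝ)).prod
      ((ContinuousLinearMap.fst ℝ E (ℝ × ℝ)).comp (ContinuousLinearMap.snd ℝ E (E × ℝ × ℝ)))).comp
      (ContinuousLinearMap.proj (R := ℝ) (φ := fun _ : Fin 4 => E × E × ℝ × ℝ) 0)
  refine le_trans (dimH_mono ?_) ((π.lipschitz.dimH_image_le s.Sig).trans (Surf.dimH_Sig hd s))
  rintro q ⟨p, u, p0, u0, p4, u4, h⟩
  have h' : ∀ k : Fin 4, ∃ t : ℝ, 0 < t ∧ p (k + 1) = p k + t • u k := fun k =>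
    (h k k.2).2.2.2.1
  choose t ht using h'
  have hp : ∀ k : Fin 4, p ((k + 1 : Fin 4) : ℕ) = p (k + 1) := by
    intro k; fin_cases k <;> simp [p0, p4]
  have hu : ∀ k : Fin 4, u ((k + 1 : Fin 4) : ℕ) = u (k + 1) := by
    intro k; fin_cases k <;> simp [u0, u4]
  let y : Cfg E := fun k => (p k, u k, t k, 2 * inner ℝ (u k) (gradient f (p k)) /
    ‖gradient f (p k)‖ ^ 2)
  refine ⟨y, fun k => ?_, Prod.ext p0 u0⟩
  obtain ⟨a1, a2, -, -, a5⟩ := h k k.2
  obtain ⟨-, b2, b3, -, -⟩ := h (k + 1 : Fin 4) (k + 1).2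
  rw [hp, hu] at b3
  rw [hu] at b2
  set G := gradient f (p (k + 1)) with hG
  have hG0 : ‖G‖ ≠ 0 := by
    intro h0
    rw [norm_eq_zero.1 h0, inner_zero_right] at b3
    exact lt_irrefl _ b3
  have e1 : inner ℝ (u (k + 1)) G = -inner ℝ (u k) G := by
    rw [a5, inner_sub_left, real_inner_smul_left, real_inner_self_eq_norm_sq]
    field_simp
    ring
  have un : ∀ z : E, ‖z‖ = 1 → ⟪z, z⟫ = (1 : ℝ) := fun z hz => by
    rw [real_inner_self_eq_norm_sq, hz]; norm_num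
  refine ⟨by rw [hs]; exact a1, ?_, un _ a2, (ht k).1, ?_, ?_⟩
  · change p ((k + 1 : Fin 4) : ℕ) - p k = t k • u k
    rw [hp, (ht k).2]; abel
  · change u ((k + 1 : Fin 4) : ℕ) - u k = (2 * inner ℝ (u ((k + 1 : Fin 4) : ℕ))
      (gradient f (p ((k + 1 : Fin 4) : ℕ))) / ‖gradient f (p ((k + 1 : Fin 4) : ℕ))‖ ^ 2) •
      s.N (p ((k + 1 : Fin 4) : ℕ))
    rw [hp, hu, hN, ← hG, e1]
    nth_rewrite 1 [a5]
    rw [mul_neg, neg_div, neg_smul]; abel
  · change 1 - ⟪u k, u ((k + 1 : Fin 4) : ℕ)⟫ ≠ 0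
    rw [hu]
    intro h0
    have : u (k + 1) - u k = 0 := by
      rw [← inner_self_eq_zero (𝕜 := ℝ), inner_sub_left, inner_sub_right, inner_sub_right,
        un _ a2, un _ b2, real_inner_comm (u k)]
      linarith
    rw [sub_eq_zero.1 this] at e1 b3
    linarith

end Pool.Agent.MP_249f74_an.H39
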